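import Pool.Agent.KS6_14.VD.Gap

set_option autoImplicit false

/-!
# Approximation algorithms decide `NP` languages
-/

namespace Pool.Agent.KS6_14.VD

open Pool.Agent.NPC Pool.Agent.H569R2.VDel Pool.Agent.R550.HS

/-- the cost of a solution, in computable form -/
def costB (I : Inst) (S : List ℕ) : ℕ :=
  (((List.range I.1.length).filter (fun v => decide (v ∈ S))).map (fun v => I.1.getD v 0)).sum

theorem list_sum_eq (l : List ℕ) (hl : l.Nodup) (p : ℕ → Bool) (f : ℕ → ℕ) :
    ((l.filter p).map f).sum = ∑ v ∈ l.toFinset, if p v = true then f v else 0 := by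
  induction l with
  | nil => simp
  | cons a l ih =>
    rw [List.nodup_cons] at hl
    rw [List.toFinset_cons, Finset.sum_insert (by simpa using hl.1), ← ih hl.2, List.filter_cons]
    split_ifs with h <;> simp

theorem cost_eq_costB (I : Inst) (S : List ℕ) : cost I S = costB I S := by
  classical
  unfold cost costB
  rw [list_sum_eq _ List.nodup_range, List.toFinset_range, Finset.sum_filter]
  rw [← Fin.sum_univ_eq_sum_range (fun v => if decide (v ∈ S) = true then I.1.getD v 0 else 0)]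
  refine Finset.sum_congr rfl fun v _ => ?_
  simp

variable {α : Type} [TEnc α]

theorem poly_costB {I : α → Inst} {S : α → List ℕ} (hI : Poly I) (hS : Poly S) :
    Poly (fun a => costB (I a) (S a)) := by
  unfold costB
  have h0 : Poly (fun a => (I a).1) := Poly.fst hI
  have h1 : Poly (fun a => List.range (I a).1.length) := (UPoly.length h0).range
  have h2 : Poly (fun a => (List.range (I a).1.length).filter (fun v => decide (v ∈ S a))) :=
    Poly.filter (p := fun a v => decide (v ∈ S a)) h1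
      (Poly.decide_mem (Poly.snd Poly.id) (hS.comp (Poly.fst Poly.id)))
  refine Poly.sum (NPC.Poly.map (F := fun a v => (I a).1.getD v 0) h2 ?_)
  exact Poly.getD (d := fun _ => 0) (h0.comp (Poly.fst Poly.id)) (Poly.snd Poly.id)
    (NPC.Poly.const _)

/-- the decision procedure -/
def dec (F : List Bool → List Bool) (κ : List Bool → ℕ)
    (g : List Bool × ℕ × List Unit → Inst × ℕ) (p : List Bool × List Unit) : Bool :=
  (unbits (List ℕ) (F (bits (g (p.1, κ p.1, p.2)).1))).any
    fun S => decide (costB (g (p.1, κ p.1, p.2)).1 S ≤ 2 ^ κ p.1 * (g (p.1, κ p.1, p.2)).2)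

theorem poly_dec {F : List Bool → List Bool} (hF : PolyTime F) {κ : List Bool → ℕ}
    (hκ : UPoly κ) {g : List Bool × ℕ × List Unit → Inst × ℕ} (hg : Poly g) :
    Poly (dec F κ g) := by
  have h1 : Poly (fun p : List Bool × List Unit => p.1) := Poly.fst Poly.id
  have h2 : Poly (fun p : List Bool × List Unit => g (p.1, κ p.1, p.2)) :=
    hg.comp (Poly.pair h1 (Poly.pair (hκ.toPoly.comp h1) (Poly.snd Poly.id)))
  refine Poly.optAny_fp (o := fun p : List Bool × List Unit =>
      unbits (List ℕ) (F (bits (g (p.1, κ p.1, p.2)).1)))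
    (h := fun p S => decide (costB (g (p.1, κ p.1, p.2)).1 S ≤
      2 ^ κ p.1 * (g (p.1, κ p.1, p.2)).2)) ?_ ?_
  · exact poly_unbits.comp ((Pool.Agent.H569R2.poly_of_polyTime hF).comp
      (Pool.Agent.H569R2.poly_bits.comp (Poly.fst h2)))
  · have h3 : Poly (fun q : (List Bool × List Unit) × List ℕ =>
      g (q.1.1, κ q.1.1, q.1.2)) := h2.comp (Poly.fst Poly.id)
    have h4 : Poly (fun q : (List Bool × List Unit) × List ℕ => 2 ^ κ q.1.1) :=
      poly_powU (NPC.Poly.const 2) (hκ.comp (Poly.fst (Poly.fst Poly.id)))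
    exact Poly.decide_le (poly_costB (Poly.fst h3) (Poly.snd Poly.id))
      (Poly.mul h4 (Poly.snd h3))

/-- correctness of the decision procedure -/
theorem dec_iff {P : Inst → Prop} {ρ : ℕ → ℝ} {F : List Bool → List Bool}
    (hF : ∀ I : Inst, P I → ∃ S : List ℕ, F (bits I) = bits S ∧ Feasible I S ∧
      ∀ S' : List ℕ, Feasible I S' → (cost I S : ℝ) ≤ ρ I.1.length * (cost I S' : ℝ))
    {κ : List Bool → ℕ} {g : List Bool × ℕ × List Unit → Inst × ℕ} {x : List Bool}
    {u : List Unit} {I : Inst} {k : ℕ} {L : Set (List Bool)} (hg : g (x, κ x, u) = (I, k))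
    (hP : P I) (hρ : ρ I.1.length ≤ 2 ^ κ x)
    (h1 : x ∈ L → ∃ S, Feasible I S ∧ cost I S ≤ k)
    (h2 : x ∉ L → ∀ S, Feasible I S → 2 ^ κ x * k < cost I S) :
    x ∈ L ↔ dec F κ g (x, u) = true := by
  obtain ⟨S, hS1, hS2, hS3⟩ := hF I hP
  have hd : dec F κ g (x, u) = true ↔ cost I S ≤ 2 ^ κ x * k := by
    unfold dec
    simp only [hg]
    rw [hS1, unbits_bits, cost_eq_costB]
    simp
  rw [hd]
  constructor
  · intro hx
    obtain ⟨S', hS', hc⟩ := h1 hx
    have h3 : (cost I S : ℝ) ≤ 2 ^ κ x * k := by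
      calc (cost I S : ℝ) ≤ ρ I.1.length * cost I S' := hS3 S' hS'
        _ ≤ 2 ^ κ x * cost I S' := mul_le_mul_of_nonneg_right hρ (by positivity)
        _ ≤ 2 ^ κ x * k := mul_le_mul_of_nonneg_left (by exact_mod_cast hc) (by positivity)
    exact_mod_cast h3
  · intro hle
    by_contra hx
    have := h2 hx S hS2
    omega

/-- constant ratios -/
theorem inP_of_const {α : ℝ}
    (h : ApproxRatio (fun I => TwoCosts I ∧ NearBip I) (fun _ => α)) {L : Set (List Bool)}
    (hL : InNP L) : InP L := by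
  obtain ⟨F, hF, hFs⟩ := h
  obtain ⟨C, f, k, g, hg, hgs, hfk⟩ := gapK hL
  let K := ⌈α⌉₊
  have hκ : UPoly (fun _ : List Bool => K) := UPoly.const K
  have hs : UPoly (fun x : List Bool => (x.length + 2) ^ (C * (K + 1))) :=
    uPoly_powc (UPoly.add (UPoly.length Poly.id) (UPoly.const 2)) _
  have hd : Poly (fun x : List Bool => dec F (fun _ => K) g
      (x, List.replicate ((x.length + 2) ^ (C * (K + 1))) ())) :=
    (poly_dec hF hκ hg).comp (Poly.pair Poly.id hs)
  refine ⟨fun x => [dec F (fun _ => K) g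
    (x, List.replicate ((x.length + 2) ^ (C * (K + 1))) ())], polyTime_of_poly hd, fun x => ?_⟩
  obtain ⟨h1, h2, h3, h4, h5, h6⟩ := hfk x K
  rw [dec_iff (ρ := fun _ => α) hFs (κ := fun _ => K) (L := L) (hgs x K _ le_rfl) ⟨h1, h2⟩ ?_
    h5 h6]
  · simp
  · have h7 : (K : ℝ) ≤ 2 ^ K := by exact_mod_cast Nat.lt_two_pow_self.le
    exact (Nat.le_ceil α).trans h7

/-- the length of the binary code -/
theorem size_eq (n : ℕ) (hn : 0 < n) : n.size = Nat.log 2 n + 1 := by
  refine le_antisymm (Nat.size_le.2 (Nat.lt_pow_succ_log_self (by norm_num) n)) ?_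
  exact Nat.lt_size.2 (Nat.pow_log_le_self 2 (by omega))

/-- the logarithm -/
def lam (x : List Bool) : ℕ := Nat.log 2 (x.length + 2) + 1

theorem uPoly_lam : UPoly lam := by
  have h1 : Poly (fun x : List Bool => x.length + 2) :=
    (UPoly.add (UPoly.length Poly.id) (UPoly.const 2)).toPoly
  have h2 : UPoly (fun x : List Bool => (x.length + 2).bits.length) :=
    UPoly.length (Poly.natBits h1)
  refine Poly.congr h2 fun x => ?_
  have h3 : (x.length + 2).bits.length = lam x := by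
    rw [Nat.size_eq_bits_len, size_eq _ (by omega)]
    rfl
  simp only [h3]

theorem two_le_lam (x : List Bool) : 2 ≤ lam x := by
  unfold lam
  have : 1 ≤ Nat.log 2 (x.length + 2) := Nat.log_pos (by norm_num) (by omega)
  omega

theorem le_pow_lam (x : List Bool) : x.length + 2 ≤ 2 ^ lam x :=
  (Nat.lt_pow_succ_log_self (by norm_num) _).le

theorem ratio_bound {ε : ℝ} (h1 : ε < 1) {a : ℕ} (ha : 1 ≤ ε * (a + 1)) {y N : ℕ}
    (hy : 1 ≤ y) (hN : N ≤ 2 ^ y ^ (a + 1)) :
    (2 : ℝ) ^ (Real.logb 2 N) ^ (1 - ε) ≤ 2 ^ y ^ a := by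
  have hy' : (1 : ℝ) ≤ y := by exact_mod_cast hy
  have e0 : 0 ≤ Real.logb 2 N := by
    rcases Nat.eq_zero_or_pos N with h | h
    · rw [h]; simp
    · exact Real.logb_nonneg (by norm_num) (by exact_mod_cast h)
  have e1 : Real.logb 2 N ≤ (y : ℝ) ^ (a + 1) := by
    rcases Nat.eq_zero_or_pos N with h | h
    · rw [h]
      simp
    · have h3 : (N : ℝ) ≤ 2 ^ y ^ (a + 1) := by exact_mod_cast hN
      have h4 := Real.logb_le_logb_of_le (b := 2) (by norm_num) (by exact_mod_cast h) h3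
      rw [Real.logb_pow, Real.logb_self_eq_one (by norm_num)] at h4
      simpa using h4
  have e2 : (Real.logb 2 N) ^ (1 - ε) ≤ (y : ℝ) ^ a := by
    calc (Real.logb 2 N) ^ (1 - ε) ≤ ((y : ℝ) ^ (a + 1)) ^ (1 - ε) :=
          Real.rpow_le_rpow e0 e1 (by linarith)
      _ = (y : ℝ) ^ ((a + 1 : ℕ) * (1 - ε) : ℝ) := by
          rw [← Real.rpow_natCast, ← Real.rpow_mul (by positivity)]
      _ ≤ (y : ℝ) ^ (a : ℝ) := by
          refine Real.rpow_le_rpow_of_exponent_le hy' ?_
          push_cast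
          nlinarith
      _ = (y : ℝ) ^ a := Real.rpow_natCast _ _
  calc (2 : ℝ) ^ (Real.logb 2 N) ^ (1 - ε) ≤ (2 : ℝ) ^ ((y ^ a : ℕ) : ℝ) := by
        refine Real.rpow_le_rpow_of_exponent_le (by norm_num) ?_
        push_cast
        exact e2
    _ = 2 ^ y ^ a := Real.rpow_natCast _ _

/-- quasi-polynomial time -/
theorem inQP_of_ratio {ε : ℝ} (h0 : 0 < ε) (h1 : ε < 1)
    (h : ApproxRatio (fun I => TwoCosts I ∧ NearBip I)
      (fun n => 2 ^ (Real.logb 2 n) ^ (1 - ε))) {L : Set (List Bool)}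
    (hL : InNP L) : InQP L := by
  obtain ⟨F, hF, hFs⟩ := h
  obtain ⟨C, f, k, g, hg, hgs, hfk⟩ := gapK hL
  obtain ⟨a, ha⟩ := exists_nat_ge (1 / ε)
  have ha' : 1 ≤ ε * (a + 1) := by
    have : 1 ≤ ε * a := by
      rw [div_le_iff₀ h0] at ha
      linarith
    nlinarith
  -- the number of levels
  let y : List Bool → ℕ := fun x => 2 * (C + 1) * lam x
  let κ : List Bool → ℕ := fun x => y x ^ a
  have hy : UPoly y := UPoly.mul (UPoly.const _) uPoly_lam
  have hκ : UPoly κ := uPoly_powc hy a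
  have hd : Poly (dec F κ g) := poly_dec hF hκ hg
  have hy1 : ∀ x, 1 ≤ y x := by
    intro x
    have := two_le_lam x
    have : 0 < 2 * (C + 1) * lam x := by positivity
    exact this
  have hbound : ∀ x, (x.length + 2) ^ (C * (κ x + 1)) ≤ 2 ^ y x ^ (a + 1) := by
    intro x
    have hκ1 : 1 ≤ κ x := Nat.one_le_pow _ _ (hy1 x)
    calc (x.length + 2) ^ (C * (κ x + 1)) ≤ (2 ^ lam x) ^ (C * (κ x + 1)) :=
          Nat.pow_le_pow_left (le_pow_lam x) _
      _ = 2 ^ (lam x * (C * (κ x + 1))) := by rw [← pow_mul]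
      _ ≤ 2 ^ y x ^ (a + 1) := by
          refine Nat.pow_le_pow_right (by norm_num) ?_
          rw [pow_succ]
          change lam x * (C * (κ x + 1)) ≤ κ x * (2 * (C + 1) * lam x)
          have h2 : C * (κ x + 1) ≤ (C + 1) * (2 * κ x) := Nat.mul_le_mul (by omega) (by omega)
          calc lam x * (C * (κ x + 1)) ≤ lam x * ((C + 1) * (2 * κ x)) :=
                Nat.mul_le_mul_left _ h2
            _ = κ x * (2 * (C + 1) * lam x) := by ring
  refine ⟨(2 * (C + 1)) ^ (a + 1) + (a + 1), fun z =>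
    [(unbits (List Bool × List Unit) z).any (fun p => dec F κ g p)], ?_, ?_⟩
  · refine polyTime_of_poly ?_
    exact Poly.optAny_fp (h := fun _ p => dec F κ g p) poly_unbits (hd.comp (Poly.snd Poly.id))
  · intro x s hs
    have h2 : (x.length + 2) ^ (C * (κ x + 1)) ≤ s := by
      refine (hbound x).trans (le_trans ?_ hs)
      refine Nat.pow_le_pow_right (by norm_num) ?_
      change (2 * (C + 1) * lam x) ^ (a + 1) ≤ lam x ^ ((2 * (C + 1)) ^ (a + 1) + (a + 1))
      rw [mul_pow, pow_add (lam x) ((2 * (C + 1)) ^ (a + 1)) (a + 1)]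
      refine Nat.mul_le_mul_right _ ?_
      calc (2 * (C + 1)) ^ (a + 1) ≤ 2 ^ (2 * (C + 1)) ^ (a + 1) := Nat.lt_two_pow_self.le
        _ ≤ lam x ^ (2 * (C + 1)) ^ (a + 1) := Nat.pow_le_pow_left (two_le_lam x) _
    obtain ⟨q1, q2, q3, q4, q5, q6⟩ := hfk x (κ x)
    simp only [unbits_bits, Option.any_some]
    rw [dec_iff (P := fun I => TwoCosts I ∧ NearBip I)
      (ρ := fun n => 2 ^ (Real.logb 2 n) ^ (1 - ε)) hFs (κ := κ) (L := L) (hgs x (κ x) s h2)
      ⟨q1, q2⟩ ?_ q5 q6]
    · simp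
    · exact ratio_bound h1 ha' (hy1 x) (q3.trans (hbound x))

end Pool.Agent.KS6_14.VD
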