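import Pool.Graph.R_seed8.H569R2.VDel.Defs
import Pool.Graph.R_seed8.NPC.Classes

set_option autoImplicit false

/-!
# Definitions: nearly bipartite instances, approximation ratios, quasi-polynomial time
-/

namespace Pool.Agent.KS6_14.VD

open Pool.Agent.NPC Pool.Agent.H569R2.VDel

/-- Nearly bipartite instances: deleting one vertex (`r`) leaves a bipartite graph. -/
def NearBip (I : Inst) : Prop :=
  ∃ r : Fin I.1.length, ((graph I).induce {v | v ≠ r}).Colorable 2

/-- min-Cost-VERTEX-DEL, restricted to the instances satisfying `P`, has a polynomial-time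
approximation algorithm with the ratio `ρ n`, where `n` is the number of vertices of the graph:
there is a polynomial-time function which maps the code of every instance satisfying `P` to the
code of a feasible solution whose cost is at most `ρ n` times the cost of any feasible solution. -/
def ApproxRatio (P : Inst → Prop) (ρ : ℕ → ℝ) : Prop :=
  ∃ F : List Bool → List Bool, PolyTime F ∧ ∀ I : Inst, P I →
    ∃ S : List ℕ, F (bits I) = bits S ∧ Feasible I S ∧
      ∀ S' : List ℕ, Feasible I S' → (cost I S : ℝ) ≤ ρ I.1.length * (cost I S' : ℝ)

/-- Decidability in quasi-polynomial time `2 ^ polylog n`, in the usual padded form: for some `a`,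
membership of `x` in `L` is decided in polynomial time if one is given, besides `x`, any number
`s ≥ 2 ^ (log₂ n) ^ a` of marks, where `n` is the length of `x` (`log₂ n` stands here for
`⌊log₂ (n + 2)⌋ + 1`). -/
def InQP (L : Set (List Bool)) : Prop :=
  ∃ (a : ℕ) (V : List Bool → List Bool), PolyTime V ∧ ∀ (x : List Bool) (s : ℕ),
    2 ^ (Nat.log 2 (x.length + 2) + 1) ^ a ≤ s →
      (x ∈ L ↔ V (bits (x, List.replicate s ())) = [true])

end Pool.Agent.KS6_14.VD
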