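import Pool.Agent.KS6_14.VD.Pol
import Pool.Agent.KS6_14.VD.Defs

set_option autoImplicit false

/-!
# The gap theorem
-/

namespace Pool.Agent.KS6_14.VD

open Pool.Agent.NPC Pool.Agent.H569R2.VDel Pool.Agent.R550.HS

section

variable {K d n M B : ℕ} {H : List (List ℕ)}

theorem lb_zero : lb (LL K d n M H) 0 = (0, [], [], 0) := rfl

theorem len_LL_pos : 0 < (LL K d n M H).length := by
  simp [LL, verts]

theorem nearBip : NearBip (mkI K H B (LL K d n M H)) := by
  classical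
  refine ⟨⟨0, by rw [len_mkI]; exact len_LL_pos⟩, ?_⟩
  refine ⟨SimpleGraph.Coloring.mk (fun v => if ((lb (LL K d n M H) (v.1 : ℕ)).1 = 1 ∨
    lb (LL K d n M H) (v.1 : ℕ) = (0, [], [], 1)) then (0 : Fin 2) else 1) ?_⟩
  intro u v huv
  have hL := lg_of (K := K) (d := d) (n := n) (M := M) (B := B) (H := H) [0]
    {x | x = (0, [], [], 0)} (by
      intro i hi
      simp only [List.mem_singleton, Set.mem_ofPred_eq]
      constructor
      · rintro rfl
        exact lb_zero
      · intro h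
        exact lb_inj nodup_LL hi len_LL_pos (h.trans lb_zero.symm))
  have hmem : ∀ w : {v : Fin (mkI K H B (LL K d n M H)).1.length |
      v ≠ ⟨0, by rw [len_mkI]; exact len_LL_pos⟩}, (w.1 : ℕ) ∉ [0] := by
    intro w hw
    rw [List.mem_singleton] at hw
    exact w.2 (Fin.ext hw)
  have hadj := (hL.adj ⟨u.1, hmem u⟩ ⟨v.1, hmem v⟩).1 huv
  have hu0 : lb (LL K d n M H) (u.1 : ℕ) ≠ (0, [], [], 0) := hL.nD ⟨u.1, hmem u⟩
  have hv0 : lb (LL K d n M H) (v.1 : ℕ) ≠ (0, [], [], 0) := hL.nD ⟨v.1, hmem v⟩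
  have hu3 := hL.val ⟨u.1, hmem u⟩
  have hv3 := hL.val ⟨v.1, hmem v⟩
  simp only at hadj hu3 hv3
  have h3 : ∀ x : Lab, (par K d n M H).Val x → ∀ i, x = (0, [], [], i) → i < 3 := by
    intro x hx i h
    rcases hx with ⟨i', hi', rfl⟩ | ⟨b, hb, rfl⟩ | ⟨b, j, _, _, _, rfl⟩ | ⟨b, _, rfl⟩ |
      ⟨w, i', _, _, _, rfl⟩ <;> simp only [Prod.mk.injEq] at h <;> omega
  have key : ∀ x y : Lab, (par K d n M H).E1 x y → x ≠ (0, [], [], 0) → y ≠ (0, [], [], 0) →
      (par K d n M H).Val x → (par K d n M H).Val y →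
      ((x.1 = 1 ∨ x = (0, [], [], 1)) ↔ ¬ (y.1 = 1 ∨ y = (0, [], [], 1))) := by
    intro x y h hx hy hxv hyv
    rcases h with ⟨i, j, hij, rfl, rfl⟩ | ⟨rfl, rfl⟩ | ⟨a, j, rfl, rfl | ⟨i, rfl⟩⟩ |
      ⟨a, rfl, rfl⟩ | ⟨a, i, ha, rfl, rfl⟩
    · have hi := h3 _ hxv i rfl
      have hj := h3 _ hyv j rfl
      simp only [ne_eq, Prod.mk.injEq, true_and] at hx hy ⊢
      omega
    · exact absurd rfl hx
    · simp
    · simp
    · simp
    · simp
  have hne : ((lb (LL K d n M H) (u.1 : ℕ)).1 = 1 ∨ lb (LL K d n M H) (u.1 : ℕ) = (0, [], [], 1)) ↔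
      ¬ ((lb (LL K d n M H) (v.1 : ℕ)).1 = 1 ∨ lb (LL K d n M H) (v.1 : ℕ) = (0, [], [], 1)) := by
    rcases hadj with h | h
    · exact key _ _ h hu0 hv0 hu3 hv3
    · have := key _ _ h hv0 hu0 hv3 hu3
      tauto
  by_cases h1 : (lb (LL K d n M H) (u.1 : ℕ)).1 = 1 ∨ lb (LL K d n M H) (u.1 : ℕ) = (0, [], [], 1)
  · have h2 := hne.1 h1
    rw [if_pos h1, if_neg h2]
    decide
  · have h2 : (lb (LL K d n M H) (v.1 : ℕ)).1 = 1 ∨ lb (LL K d n M H) (v.1 : ℕ) = (0, [], [], 1) := by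
      tauto
    rw [if_neg h1, if_pos h2]
    decide

theorem twoCosts_mkI {L : List Lab} : TwoCosts (mkI K H B L) := by
  refine ⟨B, ?_⟩
  intro c hc
  obtain ⟨x, _, rfl⟩ := List.mem_map.1 hc
  unfold cst
  by_cases h : 3 ≤ x.1
  · simp [h]
  · simp [h]

end

/-! ### Completeness and soundness -/

section

variable {K d n k₀ : ℕ} {H : List (List ℕ)}

theorem np_pos : 0 < np K d H := pos_paths _ _

theorem kf_pos : 0 < kf K d k₀ H := by
  have := np_pos (K := K) (d := d) (H := H)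
  unfold kf
  omega

theorem hits_iff (hd : ∀ C ∈ H, C.length = d) (X : Finset ℕ) :
    Hits X H ↔ ∀ j, j < H.length → ∃ i, i < d ∧ place H (j, i) ∈ X := by
  constructor
  · intro h j hj
    obtain ⟨a, ha, haX⟩ := h _ (List.getElem_mem hj)
    obtain ⟨i, hi, rfl⟩ := List.getElem_of_mem ha
    refine ⟨i, ?_, ?_⟩
    · rw [← hd _ (List.getElem_mem hj)]
      exact hi
    · unfold place
      simp only
      rw [List.getD_eq_getElem _ _ hj, List.getD_eq_getElem _ _ hi]
      exact haX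
  · intro h C hC
    obtain ⟨j, hj, rfl⟩ := List.getElem_of_mem hC
    obtain ⟨i, hi, hX⟩ := h j hj
    have hi' : i < H[j].length := by rw [hd _ (List.getElem_mem hj)]; exact hi
    unfold place at hX
    simp only at hX
    rw [List.getD_eq_getElem _ _ hj, List.getD_eq_getElem _ _ hi'] at hX
    exact ⟨_, List.getElem_mem hi', hX⟩

theorem place_lt (hd : ∀ C ∈ H, C.length = d) (hn : ∀ C ∈ H, ∀ a ∈ C, a < n) :
    ∀ e ∈ steps d H, place H e < n := by
  intro e he
  rw [mem_steps] at he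
  have hi' : e.2 < H[e.1].length := by rw [hd _ (List.getElem_mem he.1)]; exact he.2
  unfold place
  rw [List.getD_eq_getElem _ _ he.1, List.getD_eq_getElem _ _ hi']
  exact hn _ (List.getElem_mem _) _ (List.getElem_mem _)

theorem yes_case (hd : ∀ C ∈ H, C.length = d) {X : Finset ℕ} (hX : Hits X H)
    (hXc : X.card ≤ k₀) : ∃ S, Feasible (inst K d n k₀ H) S ∧
      cost (inst K d n k₀ H) S ≤ kf K d k₀ H := by
  obtain ⟨S, h1, h2⟩ := complete (K := K) (d := d) (n := n) (M := 2 * np K d H)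
    (B := 2 ^ K * kf K d k₀ H + 1) ((hits_iff hd X).1 hX)
  refine ⟨S, h1, h2.trans ?_⟩
  unfold kf
  exact Nat.add_le_add_right (Nat.mul_le_mul_left _ (Nat.pow_le_pow_left hXc K)) _

theorem no_case (hd : ∀ C ∈ H, C.length = d) (hn : ∀ C ∈ H, ∀ a ∈ C, a < n) (hk : 0 < k₀)
    (hX : ∀ X : Finset ℕ, Hits X H → 2 * k₀ < X.card) (S : List ℕ)
    (hS : Feasible (inst (K + 1) d n k₀ H) S) :
    2 ^ K * kf (K + 1) d k₀ H < cost (inst (K + 1) d n k₀ H) S := by
  have hp := np_pos (K := K + 1) (d := d) (H := H)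
  by_cases hB : cost (inst (K + 1) d n k₀ H) S < 2 ^ (K + 1) * kf (K + 1) d k₀ H + 1
  · have h1 := sound (K := K + 1) (h := 2 * k₀ + 1) (fun X hX' => hX X ((hits_iff hd X).2 hX'))
      (place_lt hd hn) hS hB
    change 2 * np (K + 1) d H * (2 * k₀ + 1) ^ (K + 1) ≤
      cost (inst (K + 1) d n k₀ H) S + np (K + 1) d H at h1
    have h2 : (2 * k₀) ^ (K + 1) + 1 ≤ (2 * k₀ + 1) ^ (K + 1) :=
      Nat.pow_lt_pow_left (by omega) (by omega)
    have h3 : 1 ≤ k₀ ^ (K + 1) := Nat.one_le_pow _ _ hk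
    have h4 : (2 * k₀) ^ (K + 1) = 2 * (2 ^ K * k₀ ^ (K + 1)) := by
      rw [mul_pow, pow_succ 2 K]; ring
    have h5 : 2 * np (K + 1) d H * ((2 * k₀) ^ (K + 1) + 1) ≤
      cost (inst (K + 1) d n k₀ H) S + np (K + 1) d H := (Nat.mul_le_mul_left _ h2).trans h1
    rw [h4] at h5
    unfold kf
    set N := np (K + 1) d H
    set A := k₀ ^ (K + 1)
    set c := cost (inst (K + 1) d n k₀ H) S
    set T := 2 ^ K
    have h6 : T * N ≤ T * N * A := Nat.le_mul_of_pos_right _ h3
    have h7 : T * (2 * N * A + N) = 2 * (T * N * A) + T * N := by ring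
    have h8 : 2 * N * (2 * (T * A) + 1) = 4 * (T * N * A) + 2 * N := by ring
    rw [h8] at h5
    rw [h7]
    omega
  · rw [not_lt] at hB
    have h1 : 2 ^ (K + 1) * kf (K + 1) d k₀ H = 2 ^ K * kf (K + 1) d k₀ H * 2 := by
      rw [pow_succ]; ring
    omega

/-- a bound for the parameters -/
def bb (d n : ℕ) (H : List (List ℕ)) : ℕ := H.length * d + n + H.length + 4

theorem len_inst : (inst (K + 1) d n k₀ H).1.length ≤ bb d n H ^ (4 * (K + 1)) := by
  have h1 : (inst (K + 1) d n k₀ H).1.length =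
      (LL (K + 1) d n (2 * np (K + 1) d H) H).length := len_mkI _
  rw [h1]
  have hb : 4 ≤ bb d n H := by unfold bb; omega
  have hN : np (K + 1) d H ≤ bb d n H ^ (K + 1) := by
    unfold np
    refine (length_paths _ _).trans (Nat.pow_le_pow_left ?_ _)
    rw [length_steps]
    unfold bb
    omega
  have hW : (paths (List.range n) (K + 1)).length ≤ bb d n H ^ (K + 1) := by
    refine (length_paths _ _).trans (Nat.pow_le_pow_left ?_ _)
    rw [List.length_range]
    unfold bb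
    omega
  have hm : H.length ≤ bb d n H ^ (K + 1) := by
    have : H.length ≤ bb d n H := by unfold bb; omega
    refine this.trans ?_
    calc bb d n H = bb d n H ^ 1 := (pow_one _).symm
      _ ≤ _ := Nat.pow_le_pow_right (by omega) (by omega)
  have h2 : (LL (K + 1) d n (2 * np (K + 1) d H) H).length ≤ 3 + (np (K + 1) d H +
      (np (K + 1) d H * H.length + (np (K + 1) d H +
        (paths (List.range n) (K + 1)).length * (2 * np (K + 1) d H)))) := by
    unfold LL verts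
    simp only [List.length_append, List.length_map, List.length_flatMap, List.length_range,
      List.length_cons, List.length_nil, List.map_const', List.sum_replicate, smul_eq_mul]
    have e1 : ((paths (steps d H) (K + 1)).filter (fun a => decide (a.length < K + 1))).length ≤
      np (K + 1) d H := List.length_filter_le _ _
    have e2 : ((paths (List.range n) (K + 1)).filter
      (fun w => decide (w.length = K + 1))).length ≤
      (paths (List.range n) (K + 1)).length := List.length_filter_le _ _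
    have e3 := Nat.mul_le_mul_right H.length e1
    have e4 := Nat.mul_le_mul_right (2 * np (K + 1) d H) e2
    change 0 + 1 + 1 + 1 + (np (K + 1) d H + (_ + (np (K + 1) d H + _))) ≤ _
    omega
  refine h2.trans ?_
  set N := np (K + 1) d H
  set W := (paths (List.range n) (K + 1)).length
  set b := bb d n H with hbdef
  set m := H.length
  set Q := b ^ (K + 1) with hQ
  have hQ4 : 4 ≤ Q := by
    rw [hQ]
    calc 4 ≤ b := hb
      _ = b ^ 1 := (pow_one _).symm
      _ ≤ _ := Nat.pow_le_pow_right (by omega) (by omega)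
  have h3 : N * m ≤ Q * Q := Nat.mul_le_mul hN hm
  have h4 : W * (2 * N) ≤ Q * (2 * Q) := Nat.mul_le_mul hW (Nat.mul_le_mul_left _ hN)
  have h5 : b ^ (4 * (K + 1)) = Q * Q * (Q * Q) := by
    rw [hQ, mul_comm 4 (K + 1), pow_mul]; ring
  rw [h5]
  have h6 : 16 ≤ Q * Q := by nlinarith
  have h7 : 16 * (Q * Q) ≤ Q * Q * (Q * Q) := Nat.mul_le_mul_right _ h6
  have h8 : Q ≤ Q * Q := Nat.le_mul_of_pos_left _ (by omega)
  have h9 : Q * (2 * Q) = 2 * (Q * Q) := by ring
  omega

end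

/-- polynomials are bounded by powers -/
theorem eval_le (p : Polynomial ℕ) : ∃ C, ∀ n : ℕ, p.eval n ≤ (n + 2) ^ C := by
  induction p using Polynomial.induction_on' with
  | add p q hp hq =>
    obtain ⟨a, ha⟩ := hp
    obtain ⟨b, hb⟩ := hq
    refine ⟨a + b + 1, fun n => ?_⟩
    rw [Polynomial.eval_add]
    have h1 : (n + 2) ^ a ≤ (n + 2) ^ (a + b) := Nat.pow_le_pow_right (by omega) (by omega)
    have h2 : (n + 2) ^ b ≤ (n + 2) ^ (a + b) := Nat.pow_le_pow_right (by omega) (by omega)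
    have h3 := ha n
    have h4 := hb n
    have h5 : 2 * (n + 2) ^ (a + b) ≤ (n + 2) ^ (a + b + 1) := by
      rw [pow_succ, mul_comm]
      exact Nat.mul_le_mul_left _ (by omega)
    omega
  | monomial k c =>
    refine ⟨c + k, fun n => ?_⟩
    rw [Polynomial.eval_monomial, pow_add]
    refine Nat.mul_le_mul ?_ (Nat.pow_le_pow_left (by omega) _)
    calc c ≤ 2 ^ c := Nat.lt_two_pow_self.le
      _ ≤ (n + 2) ^ c := Nat.pow_le_pow_left (by omega) _

theorem uPoly_le {m : List Bool → ℕ} (hm : UPoly m) : ∃ C, ∀ x, m x ≤ (x.length + 2) ^ C := by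
  obtain ⟨p, hp⟩ := hm.sz_le
  obtain ⟨C, hC⟩ := eval_le p
  refine ⟨3 * C, fun x => ?_⟩
  have h1 := length_lt_sz (List.replicate (m x) ())
  rw [List.length_replicate] at h1
  have h2 := hp x
  have h3 := hC (sz x)
  have h4 := sz_listBool_le x
  have h5 : sz x + 2 ≤ (x.length + 2) ^ 3 := by
    have : 4 * x.length + 1 + 2 ≤ (x.length + 2) ^ 3 := by
      have : (x.length + 2) ^ 3 = x.length ^ 3 + 6 * x.length ^ 2 + 12 * x.length + 8 := by ring
      rw [this]
      nlinarith [Nat.zero_le (x.length ^ 3), Nat.zero_le (x.length ^ 2)]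
    omega
  calc m x ≤ (sz x + 2) ^ C := by omega
    _ ≤ ((x.length + 2) ^ 3) ^ C := Nat.pow_le_pow_left h5 _
    _ = _ := by rw [← pow_mul]

/-- **The gap theorem**, with the computation in terms of the typed calculus. -/
theorem gapK {L : Set (List Bool)} (hL : InNP L) :
    ∃ (C : ℕ) (f : List Bool → ℕ → Inst) (k : List Bool → ℕ → ℕ)
      (g : List Bool × ℕ × List Unit → Inst × ℕ), Poly g ∧
      (∀ x K s, (x.length + 2) ^ (C * (K + 1)) ≤ s →
        g (x, K, List.replicate s ()) = (f x K, k x K)) ∧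
      ∀ x K, TwoCosts (f x K) ∧ NearBip (f x K) ∧
        (f x K).1.length ≤ (x.length + 2) ^ (C * (K + 1)) ∧ 0 < k x K ∧
        (x ∈ L → ∃ S, Feasible (f x K) S ∧ cost (f x K) S ≤ k x K) ∧
        (x ∉ L → ∀ S, Feasible (f x K) S → 2 ^ K * k x K < cost (f x K) S) := by
  obtain ⟨t, ht, hg⟩ := gap 2
  obtain ⟨m, H, hm, hH, hx⟩ := hg hL
  have hn : UPoly (fun x => (3 * m x) ^ t) := uPoly_powc (UPoly.mul (UPoly.const 3) hm) t
  have hk : Poly (fun x => (2 * m x) ^ t) :=
    (uPoly_powc (UPoly.mul (UPoly.const 2) hm) t).toPoly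
  have hb : UPoly (fun x => bb (2 ^ t) ((3 * m x) ^ t) (H x)) := by
    unfold bb
    exact UPoly.add (UPoly.add (UPoly.add (UPoly.mul (UPoly.length hH) (UPoly.const _)) hn)
      (UPoly.length hH)) (UPoly.const _)
  obtain ⟨C, hC⟩ := uPoly_le hb
  refine ⟨4 * C, fun x K => inst (K + 1) (2 ^ t) ((3 * m x) ^ t) ((2 * m x) ^ t) (H x),
    fun x K => kf (K + 1) (2 ^ t) ((2 * m x) ^ t) (H x),
    fun p => (instG p.2.2.length (min p.2.1 p.2.2.length + 1) (2 ^ t) ((3 * m p.1) ^ t)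
      ((2 * m p.1) ^ t) (H p.1), kfG p.2.2.length (min p.2.1 p.2.2.length + 1) (2 ^ t)
      ((2 * m p.1) ^ t) (H p.1)), ?_, ?_, ?_⟩
  · have h1 : Poly (fun p : List Bool × ℕ × List Unit => p.1) := Poly.fst Poly.id
    have h2 : UPoly (fun p : List Bool × ℕ × List Unit => p.2.2.length) :=
      UPoly.length (Poly.snd (Poly.snd Poly.id))
    have h3 : UPoly (fun p : List Bool × ℕ × List Unit => min p.2.1 p.2.2.length + 1) :=
      UPoly.add (UPoly.of_le (Poly.min (Poly.fst (Poly.snd Poly.id)) h2.toPoly) h2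
        (fun a => min_le_right _ _)) (UPoly.const 1)
    exact Poly.pair
      (poly_instG (2 ^ t) h2 h3 (hn.comp h1) (hk.comp h1) (hH.comp h1))
      (poly_kfG (2 ^ t) h2 h3 (hk.comp h1) (hH.comp h1))
  · intro x K s hs
    have hb4 : 4 ≤ bb (2 ^ t) ((3 * m x) ^ t) (H x) := by unfold bb; omega
    have e1 : bb (2 ^ t) ((3 * m x) ^ t) (H x) ^ (K + 1) ≤ s := by
      refine le_trans ?_ hs
      calc bb (2 ^ t) ((3 * m x) ^ t) (H x) ^ (K + 1) ≤ ((x.length + 2) ^ C) ^ (K + 1) :=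
            Nat.pow_le_pow_left (hC x) _
        _ = (x.length + 2) ^ (C * (K + 1)) := by rw [← pow_mul]
        _ ≤ _ := Nat.pow_le_pow_right (by omega) (by nlinarith)
    have e2 : ((H x).length * 2 ^ t + 1) ^ (K + 1) ≤ s := by
      refine le_trans (Nat.pow_le_pow_left ?_ _) e1
      unfold bb
      omega
    have e3 : ((3 * m x) ^ t + 1) ^ (K + 1) ≤ s := by
      refine le_trans (Nat.pow_le_pow_left ?_ _) e1
      unfold bb
      omega
    have e4 : K ≤ s := by
      have h1 : K + 1 < 4 ^ (K + 1) := Nat.lt_pow_self (by norm_num)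
      have h2 : 4 ^ (K + 1) ≤ bb (2 ^ t) ((3 * m x) ^ t) (H x) ^ (K + 1) :=
        Nat.pow_le_pow_left hb4 _
      omega
    simp only [List.length_replicate]
    rw [min_eq_left e4, instG_eq e2 e3, kfG_eq e2]
  · intro x K
    obtain ⟨h1, h2, h3, h4, h5, h6, h7⟩ := hx x
    refine ⟨twoCosts_mkI, nearBip, ?_, kf_pos, ?_, ?_⟩
    · refine len_inst.trans ?_
      calc bb (2 ^ t) ((3 * m x) ^ t) (H x) ^ (4 * (K + 1)) ≤
            ((x.length + 2) ^ C) ^ (4 * (K + 1)) := Nat.pow_le_pow_left (hC x) _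
        _ = (x.length + 2) ^ (4 * C * (K + 1)) := by rw [← pow_mul]; ring_nf
    · intro hxL
      obtain ⟨X, hX, hXc⟩ := h6 hxL
      exact yes_case h2 hX hXc
    · intro hxL S hS
      exact no_case h2 h3 (by positivity) (h7 hxL) S hS

end Pool.Agent.KS6_14.VD
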