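import Pool.Graph.R_seed8.H569R2.VDel.Core

set_option autoImplicit false

/-!
# Stable graphs with a pendant triangle: vertices exposed by almost maximum matchings
-/

namespace Pool.Agent.KS6_14.VD

open Pool.Agent.H569R2.VDel Finset

variable {V : Type*} [Fintype V] {G : SimpleGraph V}

/-- a triangle `r₀ r₁ r₂` which is joined to the rest of the graph only by the edge `r₀ c₀` -/
structure Tri (G : SimpleGraph V) (r₀ r₁ r₂ c₀ : V) : Prop where
  a01 : G.Adj r₀ r₁
  a12 : G.Adj r₁ r₂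
  a02 : G.Adj r₀ r₂
  n0 : ∀ v, G.Adj r₀ v → v = r₁ ∨ v = r₂ ∨ v = c₀
  n1 : ∀ v, G.Adj r₁ v → v = r₀ ∨ v = r₂
  n2 : ∀ v, G.Adj r₂ v → v = r₀ ∨ v = r₁

/-- `M` is a matching with one edge less than a maximum matching which avoids `r` and `c` -/
structure NearM (G : SimpleGraph V) (r c : V) (M : Finset (Sym2 V)) : Prop where
  m : IsMatching G M
  card : M.card + 1 = nu G
  hc : ∀ e ∈ M, c ∉ e
  hr : ∀ e ∈ M, r ∉ e

/-- `c` is exposed by an almost maximum matching which also exposes `r` -/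
def Near (G : SimpleGraph V) (r c : V) : Prop := ∃ M, NearM G r c M

variable {r₀ r₁ r₂ c₀ : V}

omit [Fintype V] in
theorem mem_form {e : Sym2 V} {a : V} (h : a ∈ e) : ∃ b, e = s(a, b) := by
  obtain ⟨b, rfl⟩ := h
  exact ⟨b, rfl⟩

theorem max_mem (hT : Tri G r₀ r₁ r₂ c₀) (hst : Stable G) {M : Finset (Sym2 V)}
    (hM : IsMatching G M) (hc : M.card = nu G) : s(r₀, c₀) ∈ M := by
  by_contra h
  refine not_stable_of_triangle hM hc hT.a01 hT.a12 hT.a02 ?_ hst
  intro e he hm
  rcases hm with hm | hm | hm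
  · obtain ⟨b, rfl⟩ := mem_form hm
    have hab : G.Adj r₀ b := hM.1 _ he
    rcases hT.n0 b hab with rfl | rfl | rfl
    · exact Or.inl rfl
    · exact Or.inr (Or.inr rfl)
    · exact absurd he h
  · obtain ⟨b, rfl⟩ := mem_form hm
    have hab : G.Adj r₁ b := hM.1 _ he
    rcases hT.n1 b hab with rfl | rfl
    · exact Or.inl Sym2.eq_swap
    · exact Or.inr (Or.inl rfl)
  · obtain ⟨b, rfl⟩ := mem_form hm
    have hab : G.Adj r₂ b := hM.1 _ he
    rcases hT.n2 b hab with rfl | rfl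
    · exact Or.inr (Or.inr Sym2.eq_swap)
    · exact Or.inr (Or.inl Sym2.eq_swap)

theorem near_root (hT : Tri G r₀ r₁ r₂ c₀) (hst : Stable G) : Near G r₀ c₀ := by
  classical
  obtain ⟨M, hM, hc⟩ := exists_nu (G := G)
  have h := max_mem hT hst hM hc
  refine ⟨M.erase s(r₀, c₀), ⟨fun e he => hM.1 e (mem_of_mem_erase he), fun v e f he hf =>
    hM.2 v e f (mem_of_mem_erase he) (mem_of_mem_erase hf)⟩, ?_, ?_, ?_⟩
  · rw [card_erase_add_one h, hc]
  · intro e he hce
    rw [mem_erase] at he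
    exact he.1 (hM.2 c₀ e _ he.2 h hce (Sym2.mem_mk_right _ _))
  · intro e he hce
    rw [mem_erase] at he
    exact he.1 (hM.2 r₀ e _ he.2 h hce (Sym2.mem_mk_left _ _))

/-- every neighbour of an exposed vertex is covered -/
theorem near_cov (hT : Tri G r₀ r₁ r₂ c₀) (hst : Stable G) {c t : V} {M : Finset (Sym2 V)}
    (hM : NearM G r₀ c M) (hcr : c ≠ r₀) (hct : G.Adj c t) (htr : t ≠ r₀) :
    ∃ c', s(t, c') ∈ M := by
  classical
  by_contra hno
  push Not at hno
  have ht : ∀ e ∈ M, t ∉ e := by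
    intro e he hte
    obtain ⟨b, rfl⟩ := mem_form hte
    exact hno b he
  have hn : s(c, t) ∉ M := fun h => hM.hc _ h (Sym2.mem_mk_left _ _)
  have hM' : IsMatching G (insert s(c, t) M) := by
    constructor
    · intro e he
      rcases mem_insert.1 he with rfl | he
      · exact hct
      · exact hM.m.1 e he
    · intro v e f he hf hve hvf
      rcases mem_insert.1 he with rfl | he1 <;> rcases mem_insert.1 hf with rfl | hf1
      · rfl
      · exfalso
        rcases Sym2.mem_iff.1 hve with rfl | rfl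
        · exact hM.hc _ hf1 hvf
        · exact ht _ hf1 hvf
      · exfalso
        rcases Sym2.mem_iff.1 hvf with rfl | rfl
        · exact hM.hc _ he1 hve
        · exact ht _ he1 hve
      · exact hM.m.2 v e f he1 hf1 hve hvf
  have h := max_mem hT hst hM' (by rw [card_insert_of_notMem hn, hM.card])
  rcases mem_insert.1 h with h | h
  · have : r₀ ∈ s(c, t) := by rw [← h]; exact Sym2.mem_mk_left _ _
    rcases Sym2.mem_iff.1 this with h1 | h1
    · exact hcr h1.symm
    · exact htr h1.symm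
  · exact hM.hr _ h (Sym2.mem_mk_left _ _)

theorem near_step (hT : Tri G r₀ r₁ r₂ c₀) (hst : Stable G) {c t : V} (hN : Near G r₀ c)
    (hcr : c ≠ r₀) (hct : G.Adj c t) (htr : t ≠ r₀) :
    ∃ c', c' ≠ c ∧ c' ≠ r₀ ∧ G.Adj t c' ∧ Near G r₀ c' := by
  classical
  obtain ⟨M, hM⟩ := hN
  obtain ⟨c', hc'⟩ := near_cov hT hst hM hcr hct htr
  have htc' : G.Adj t c' := hM.m.1 _ hc'
  have h1 : c' ≠ c := by
    rintro rfl
    exact hM.hc _ hc' (Sym2.mem_mk_right _ _)
  have h2 : c' ≠ r₀ := by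
    rintro rfl
    exact hM.hr _ hc' (Sym2.mem_mk_right _ _)
  have hn : s(c, t) ∉ M.erase s(t, c') := fun h =>
    hM.hc _ (mem_of_mem_erase h) (Sym2.mem_mk_left _ _)
  have ht : ∀ e ∈ M.erase s(t, c'), t ∉ e := by
    intro e he hte
    rw [mem_erase] at he
    exact he.1 (hM.m.2 t e _ he.2 hc' hte (Sym2.mem_mk_left _ _))
  refine ⟨c', h1, h2, htc', insert s(c, t) (M.erase s(t, c')), ⟨?_, ?_⟩, ?_, ?_, ?_⟩
  · intro e he
    rcases mem_insert.1 he with rfl | he
    · exact hct
    · exact hM.m.1 e (mem_of_mem_erase he)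
  · intro v e f he hf hve hvf
    rcases mem_insert.1 he with rfl | he1 <;> rcases mem_insert.1 hf with rfl | hf1
    · rfl
    · exfalso
      rcases Sym2.mem_iff.1 hve with rfl | rfl
      · exact hM.hc _ (mem_of_mem_erase hf1) hvf
      · exact ht _ hf1 hvf
    · exfalso
      rcases Sym2.mem_iff.1 hvf with rfl | rfl
      · exact hM.hc _ (mem_of_mem_erase he1) hve
      · exact ht _ he1 hve
    · exact hM.m.2 v e f (mem_of_mem_erase he1) (mem_of_mem_erase hf1) hve hvf
  · rw [card_insert_of_notMem hn, card_erase_add_one hc', hM.card]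
  · intro e he hce
    rcases mem_insert.1 he with rfl | he
    · rcases Sym2.mem_iff.1 hce with h3 | h3
      · exact h1 h3
      · exact htc'.ne h3.symm
    · rw [mem_erase] at he
      exact he.1 (hM.m.2 c' e _ he.2 hc' hce (Sym2.mem_mk_right _ _))
  · intro e he hre
    rcases mem_insert.1 he with rfl | he
    · rcases Sym2.mem_iff.1 hre with h3 | h3
      · exact hcr h3.symm
      · exact htr h3.symm
    · exact hM.hr _ (mem_of_mem_erase he) hre

theorem near_count (hT : Tri G r₀ r₁ r₂ c₀) (hst : Stable G) {c : V} (hN : Near G r₀ c)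
    (hcr : c ≠ r₀) (T Z : Finset V) (hT1 : ∀ t ∈ T, G.Adj c t) (hT2 : ∀ t ∈ T, t ≠ r₀)
    (hZ : ∀ t ∈ T, ∀ v, G.Adj t v → v ∈ Z) : T.card ≤ Z.card := by
  classical
  obtain ⟨M, hM⟩ := hN
  have h : ∀ t : V, ∃ c', t ∈ T → s(t, c') ∈ M := by
    intro t
    by_cases ht : t ∈ T
    · obtain ⟨c', hc'⟩ := near_cov hT hst hM hcr (hT1 t ht) (hT2 t ht)
      exact ⟨c', fun _ => hc'⟩
    · exact ⟨t, fun h => absurd h ht⟩
  choose f hf using h
  refine card_le_card_of_injOn f (fun t ht => ?_) ?_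
  · exact hZ t ht _ (hM.m.1 _ (hf t ht))
  · intro t ht t' ht' he
    have h1 := hf t ht
    have h2 := hf t' ht'
    have h3 := hM.m.2 (f t) _ _ h1 h2 (Sym2.mem_mk_right _ _) (by
      rw [he]; exact Sym2.mem_mk_right _ _)
    have h4 : t ∈ s(t', f t') := by rw [← h3]; exact Sym2.mem_mk_left _ _
    rcases Sym2.mem_iff.1 h4 with h5 | h5
    · exact h5
    · exfalso
      have : G.Adj t (f t) := hM.m.1 _ h1
      rw [he, ← h5] at this
      exact this.ne rfl

end Pool.Agent.KS6_14.VD
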