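import Pool.Agent.KS6_14.VD.Lab

set_option autoImplicit false

/-!
# The instance of min-Cost-VERTEX-DEL
-/

namespace Pool.Agent.KS6_14.VD

open Pool.Agent.H569R2.VDel Finset

/-! ### Paths -/

/-- all lists of elements of `E` of length at most `r` -/
def paths {β : Type} (E : List β) : ℕ → List (List β)
  | 0 => [[]]
  | r + 1 => [] :: (paths E r).flatMap (fun a => E.map (fun e => e :: a))

theorem mem_paths {β : Type} {E : List β} (r : ℕ) {a : List β} :
    a ∈ paths E r ↔ a.length ≤ r ∧ ∀ e ∈ a, e ∈ E := by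
  induction r generalizing a with
  | zero =>
    simp only [paths, List.mem_singleton, Nat.le_zero, List.length_eq_zero_iff]
    constructor
    · rintro rfl
      exact ⟨rfl, by simp⟩
    · exact fun h => h.1
  | succ r ih =>
    simp only [paths, List.mem_cons, List.mem_flatMap, List.mem_map]
    constructor
    · rintro (rfl | ⟨b, hb, e, he, rfl⟩)
      · simp
      · rw [ih] at hb
        refine ⟨by rw [List.length_cons]; omega, ?_⟩
        intro e' he'
        rcases List.mem_cons.1 he' with rfl | he'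
        · exact he
        · exact hb.2 e' he'
    · rintro ⟨h1, h2⟩
      cases a with
      | nil => exact Or.inl rfl
      | cons e b =>
        refine Or.inr ⟨b, ih.2 ⟨by rw [List.length_cons] at h1; omega, fun e' he' =>
          h2 e' (List.mem_cons_of_mem _ he')⟩, e, h2 e (by simp), rfl⟩

theorem nodup_paths {β : Type} {E : List β} (hE : E.Nodup) (r : ℕ) : (paths E r).Nodup := by
  induction r with
  | zero => simp [paths]
  | succ r ih =>
    rw [paths, List.nodup_cons]
    refine ⟨by simp, ?_⟩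
    rw [List.nodup_flatMap]
    refine ⟨fun a _ => hE.map (fun e e' h => (List.cons.inj h).1), ?_⟩
    refine ih.imp ?_
    intro a b hab
    rw [Function.onFun, List.disjoint_left]
    intro x hx hx'
    obtain ⟨e, _, rfl⟩ := List.mem_map.1 hx
    obtain ⟨e', _, h⟩ := List.mem_map.1 hx'
    exact hab (List.cons.inj h).2.symm

theorem length_paths {β : Type} (E : List β) (r : ℕ) :
    (paths E r).length ≤ (E.length + 1) ^ r := by
  induction r with
  | zero => simp [paths]
  | succ r ih =>
    rw [paths, List.length_cons, List.length_flatMap]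
    simp only [List.length_map, List.map_const', List.sum_replicate, smul_eq_mul]
    have h1 : 1 ≤ (E.length + 1) ^ r := Nat.one_le_pow _ _ (by omega)
    rw [pow_succ]
    nlinarith

theorem pos_paths {β : Type} (E : List β) (r : ℕ) : 0 < (paths E r).length := by
  cases r <;> simp [paths]

/-- the vertex in a place of a hypergraph -/
def place (H : List (List ℕ)) (e : ℕ × ℕ) : ℕ := (H.getD e.1 []).getD e.2 0

/-- the places -/
def steps (d : ℕ) (H : List (List ℕ)) : List (ℕ × ℕ) :=
  (List.range H.length).flatMap (fun j => (List.range d).map (fun i => (j, i)))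

theorem mem_steps {d : ℕ} {H : List (List ℕ)} {e : ℕ × ℕ} :
    e ∈ steps d H ↔ e.1 < H.length ∧ e.2 < d := by
  simp only [steps, List.mem_flatMap, List.mem_range, List.mem_map]
  constructor
  · rintro ⟨j, hj, i, hi, rfl⟩
    exact ⟨hj, hi⟩
  · rintro ⟨h1, h2⟩
    exact ⟨e.1, h1, e.2, h2, rfl⟩

theorem nodup_steps (d : ℕ) (H : List (List ℕ)) : (steps d H).Nodup := by
  unfold steps
  rw [List.nodup_flatMap]
  refine ⟨fun a _ => List.nodup_range.map (fun e e' h => by simpa using h), ?_⟩
  refine List.nodup_range.imp ?_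
  intro a b hab
  rw [Function.onFun, List.disjoint_left]
  intro x hx hx'
  obtain ⟨e, _, rfl⟩ := List.mem_map.1 hx
  obtain ⟨e', _, h⟩ := List.mem_map.1 hx'
  simp only [Prod.mk.injEq] at h
  exact hab h.1.symm

theorem length_steps (d : ℕ) (H : List (List ℕ)) : (steps d H).length = H.length * d := by
  simp [steps, List.length_flatMap]

/-- the list of the vertices of the graph -/
def verts (K m M : ℕ) (PP : List (List (ℕ × ℕ))) (WW : List (List ℕ)) : List Lab :=
  [(0, [], [], 0), (0, [], [], 1), (0, [], [], 2)] ++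
  (PP.map (fun a => (1, a, [], 0)) ++
  ((PP.filter (fun a => decide (a.length < K))).flatMap
    (fun a => (List.range m).map (fun j => (2, a, [], j))) ++
  (PP.map (fun a => (3, a, [], 0)) ++
  (WW.filter (fun w => decide (w.length = K))).flatMap
    (fun w => (List.range M).map (fun i => (4, [], w, i))))))

/-- adjacency, with one orientation -/
def e1b (K : ℕ) (H : List (List ℕ)) (x y : Lab) : Bool :=
  (decide (x.1 = 0) && decide (y.1 = 0) && !decide (x.2.2.2 = y.2.2.2)) ||
  (decide (x = (0, [], [], 0)) && decide (y = (1, [], [], 0))) ||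
  (decide (x.1 = 2) && decide (y.1 = 1) && (decide (y.2.1 = x.2.1) ||
    decide (y.2.1 = (x.2.2.2, (y.2.1.head?.getD (0, 0)).2) :: x.2.1))) ||
  (decide (x.1 = 3) && decide (y.1 = 1) && decide (y.2.1 = x.2.1)) ||
  (decide (x.1 = 4) && decide (y.1 = 1) && decide (y.2.1.length = K) &&
    decide (x.2.2.1 = y.2.1.map (place H)))

/-- the label with number `i` -/
def lb (L : List Lab) (i : ℕ) : Lab := L.getD i (0, [], [], 0)

/-- the edges -/
def edg (K : ℕ) (H : List (List ℕ)) (L : List Lab) : List (ℕ × ℕ) :=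
  (List.range L.length).flatMap (fun i =>
    ((List.range L.length).filter (fun j => e1b K H (lb L i) (lb L j))).map (fun j => (i, j)))

/-- the cost of a vertex -/
def cst (B : ℕ) (x : Lab) : ℕ := bif decide (3 ≤ x.1) then 1 else B

/-- the instance -/
def mkI (K : ℕ) (H : List (List ℕ)) (B : ℕ) (L : List Lab) : Inst := (L.map (cst B), edg K H L)

/-- the parameters of an instance -/
def par (K d n M : ℕ) (H : List (List ℕ)) : Par := ⟨K, H.length, d, n, M, place H⟩

/-- the list of labels of the instance -/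
def LL (K d n M : ℕ) (H : List (List ℕ)) : List Lab :=
  verts K H.length M (paths (steps d H) K) (paths (List.range n) K)

section

variable {K d n M : ℕ} {H : List (List ℕ)}

theorem mem_PP {a : List (ℕ × ℕ)} : a ∈ paths (steps d H) K ↔ (par K d n M H).IsP a := by
  rw [mem_paths]
  unfold Par.IsP par
  simp only [mem_steps]

theorem mem_LL {x : Lab} : x ∈ LL K d n M H ↔ (par K d n M H).Val x := by
  unfold LL verts Par.Val
  simp only [List.mem_append, List.mem_map, List.mem_flatMap, List.mem_filter, List.mem_range,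
    decide_eq_true_eq, mem_PP (n := n) (M := M)]
  refine or_congr ?_ (or_congr ?_ (or_congr ?_ (or_congr ?_ ?_)))
  · simp only [List.mem_cons, List.not_mem_nil, or_false]
    constructor
    · rintro (rfl | rfl | rfl)
      · exact ⟨0, by norm_num, rfl⟩
      · exact ⟨1, by norm_num, rfl⟩
      · exact ⟨2, by norm_num, rfl⟩
    · rintro ⟨i, hi, rfl⟩
      have : i = 0 ∨ i = 1 ∨ i = 2 := by omega
      rcases this with rfl | rfl | rfl <;> simp
  · exact exists_congr fun a => and_congr_right fun _ => eq_comm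
  · constructor
    · rintro ⟨a, ⟨ha, hK⟩, j, hj, rfl⟩
      exact ⟨a, j, ha, hK, hj, rfl⟩
    · rintro ⟨a, j, ha, hK, hj, rfl⟩
      exact ⟨a, ⟨ha, hK⟩, j, hj, rfl⟩
  · exact exists_congr fun a => and_congr_right fun _ => eq_comm
  · constructor
    · rintro ⟨w, ⟨hw, hK⟩, i, hi, rfl⟩
      rw [mem_paths] at hw
      exact ⟨w, i, hK, fun v hv => List.mem_range.1 (hw.2 v hv), hi, rfl⟩
    · rintro ⟨w, i, hK, hw, hi, rfl⟩
      refine ⟨w, ⟨(mem_paths _).2 ⟨le_of_eq hK, fun v hv => List.mem_range.2 (hw v hv)⟩, hK⟩, i,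
        hi, rfl⟩

theorem nodup_LL : (LL K d n M H).Nodup := by
  have hP : (paths (steps d H) K).Nodup := nodup_paths (nodup_steps d H) K
  have hW : (paths (List.range n) K).Nodup := nodup_paths List.nodup_range K
  unfold LL verts
  rw [List.nodup_append, List.nodup_append, List.nodup_append, List.nodup_append]
  refine ⟨by simp, ⟨?_, ⟨?_, ⟨?_, ?_, ?_⟩, ?_⟩, ?_⟩, ?_⟩
  · exact hP.map (fun a b h => by simpa using h)
  · rw [List.nodup_flatMap]
    refine ⟨fun a _ => List.nodup_range.map (fun e e' h => by simpa using h), ?_⟩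
    refine (hP.filter _).imp ?_
    intro a b hab
    rw [Function.onFun, List.disjoint_left]
    intro x hx hx'
    obtain ⟨e, _, rfl⟩ := List.mem_map.1 hx
    obtain ⟨e', _, h⟩ := List.mem_map.1 hx'
    simp only [Prod.mk.injEq] at h
    exact hab h.2.1.symm
  · exact hP.map (fun a b h => by simpa using h)
  · rw [List.nodup_flatMap]
    refine ⟨fun a _ => List.nodup_range.map (fun e e' h => by simpa using h), ?_⟩
    refine (hW.filter _).imp ?_
    intro a b hab
    rw [Function.onFun, List.disjoint_left]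
    intro x hx hx'
    obtain ⟨e, _, rfl⟩ := List.mem_map.1 hx
    obtain ⟨e', _, h⟩ := List.mem_map.1 hx'
    simp only [Prod.mk.injEq] at h
    exact hab h.2.2.1.symm
  · intro x hx y hy
    obtain ⟨a, _, rfl⟩ := List.mem_map.1 hx
    obtain ⟨w, _, hy⟩ := List.mem_flatMap.1 hy
    obtain ⟨i, _, rfl⟩ := List.mem_map.1 hy
    simp
  · intro x hx y hy
    obtain ⟨a, _, hx⟩ := List.mem_flatMap.1 hx
    obtain ⟨j, _, rfl⟩ := List.mem_map.1 hx
    rcases List.mem_append.1 hy with hy | hy
    · obtain ⟨b, _, rfl⟩ := List.mem_map.1 hy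
      simp
    · obtain ⟨w, _, hy⟩ := List.mem_flatMap.1 hy
      obtain ⟨i, _, rfl⟩ := List.mem_map.1 hy
      simp
  · intro x hx y hy
    obtain ⟨a, _, rfl⟩ := List.mem_map.1 hx
    rcases List.mem_append.1 hy with hy | hy
    · obtain ⟨b, _, hy⟩ := List.mem_flatMap.1 hy
      obtain ⟨j, _, rfl⟩ := List.mem_map.1 hy
      simp
    rcases List.mem_append.1 hy with hy | hy
    · obtain ⟨b, _, rfl⟩ := List.mem_map.1 hy
      simp
    · obtain ⟨w, _, hy⟩ := List.mem_flatMap.1 hy
      obtain ⟨i, _, rfl⟩ := List.mem_map.1 hy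
      simp
  · intro x hx y hy
    have hx0 : x.1 = 0 := by
      simp only [List.mem_cons, List.not_mem_nil, or_false] at hx
      rcases hx with rfl | rfl | rfl <;> rfl
    have hy0 : y.1 ≠ 0 := by
      rcases List.mem_append.1 hy with hy | hy
      · obtain ⟨b, _, rfl⟩ := List.mem_map.1 hy
        simp
      rcases List.mem_append.1 hy with hy | hy
      · obtain ⟨b, _, hy⟩ := List.mem_flatMap.1 hy
        obtain ⟨j, _, rfl⟩ := List.mem_map.1 hy
        simp
      rcases List.mem_append.1 hy with hy | hy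
      · obtain ⟨b, _, rfl⟩ := List.mem_map.1 hy
        simp
      · obtain ⟨w, _, hy⟩ := List.mem_flatMap.1 hy
        obtain ⟨i, _, rfl⟩ := List.mem_map.1 hy
        simp
    rintro rfl
    exact hy0 hx0

/-- the boolean adjacency is correct on the labels in use -/
theorem e1b_iff {x y : Lab} (hx : (par K d n M H).Val x) (hy : (par K d n M H).Val y) :
    e1b K H x y = true ↔ (par K d n M H).E1 x y := by
  unfold Par.E1 par e1b
  rcases hx with ⟨i, hi, rfl⟩ | ⟨a, ha, rfl⟩ | ⟨a, j, ha, haK, hj, rfl⟩ | ⟨a, ha, rfl⟩ |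
    ⟨w, i, hw1, hw2, hi, rfl⟩ <;>
  rcases hy with ⟨i', hi', rfl⟩ | ⟨b, hb, rfl⟩ | ⟨b, j', hb, hbK, hj', rfl⟩ | ⟨b, hb, rfl⟩ |
    ⟨w', i', hw1', hw2', hi', rfl⟩ <;> simp
  · constructor
    · rintro (h | h)
      · exact Or.inl h
      · exact Or.inr ⟨_, h⟩
    · rintro (h | ⟨i, rfl⟩)
      · exact Or.inl h
      · simp

theorem E1_ne {P : Par} {x y : Lab} (h : P.E1 x y) : x ≠ y := by
  rcases h with ⟨i, j, hij, rfl, rfl⟩ | ⟨rfl, rfl⟩ | ⟨a, j, rfl, rfl | ⟨i, rfl⟩⟩ | ⟨a, rfl, rfl⟩ |
    ⟨a, i, ha, rfl, rfl⟩ <;> simp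
  exact hij

theorem lb_mem {L : List Lab} {i : ℕ} (hi : i < L.length) : lb L i ∈ L := by
  unfold lb
  rw [List.getD_eq_getElem _ _ hi]
  exact List.getElem_mem hi

theorem lb_inj {L : List Lab} (hL : L.Nodup) {i j : ℕ} (hi : i < L.length) (hj : j < L.length)
    (h : lb L i = lb L j) : i = j := by
  unfold lb at h
  rw [List.getD_eq_getElem _ _ hi, List.getD_eq_getElem _ _ hj] at h
  exact (hL.getElem_inj_iff).1 h

theorem exists_lb {L : List Lab} {x : Lab} (hx : x ∈ L) : ∃ i, i < L.length ∧ lb L i = x := by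
  obtain ⟨i, hi, rfl⟩ := List.getElem_of_mem hx
  refine ⟨i, hi, ?_⟩
  unfold lb
  rw [List.getD_eq_getElem _ _ hi]

theorem mem_edg {L : List Lab} {i j : ℕ} : (i, j) ∈ edg K H L ↔
    i < L.length ∧ j < L.length ∧ e1b K H (lb L i) (lb L j) = true := by
  simp only [edg, List.mem_flatMap, List.mem_range, List.mem_map, List.mem_filter,
    Prod.mk.injEq]
  constructor
  · rintro ⟨i', hi', j', ⟨hj', h⟩, rfl, rfl⟩
    exact ⟨hi', hj', h⟩
  · rintro ⟨hi, hj, h⟩
    exact ⟨i, hi, j, ⟨hj, h⟩, rfl, rfl⟩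

variable {B : ℕ}

theorem len_mkI (L : List Lab) : (mkI K H B L).1.length = L.length := by
  simp [mkI]

theorem get_mkI (L : List Lab) (v : ℕ) (hv : v < (mkI K H B L).1.length) :
    (mkI K H B L).1[v] = cst B (lb L v) := by
  have h : v < L.length := by
    rwa [len_mkI] at hv
  simp only [mkI, List.getElem_map, lb]
  rw [List.getD_eq_getElem _ _ h]

/-- the graph outside a solution -/
theorem lg_of (S : List ℕ) (D : Set Lab)
    (hD : ∀ i, i < (LL K d n M H).length → (i ∈ S ↔ lb (LL K d n M H) i ∈ D)) :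
    (par K d n M H).LG D ((graph (mkI K H B (LL K d n M H))).induce
      {v : Fin (mkI K H B (LL K d n M H)).1.length | (v : ℕ) ∉ S})
      (fun u => lb (LL K d n M H) (u.1 : ℕ)) := by
  have hlt : ∀ u : {v : Fin (mkI K H B (LL K d n M H)).1.length | (v : ℕ) ∉ S},
      (u.1 : ℕ) < (LL K d n M H).length := by
    intro u
    exact lt_of_lt_of_eq u.1.2 (len_mkI _)
  refine ⟨?_, ?_, ?_, ?_, ?_⟩
  · intro u v h
    exact Subtype.ext (Fin.ext (lb_inj nodup_LL (hlt u) (hlt v) h))
  · intro u
    exact mem_LL.1 (lb_mem (hlt u))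
  · intro u h
    exact u.2 ((hD _ (hlt u)).2 h)
  · intro u v
    rw [SimpleGraph.induce_adj]
    unfold graph
    rw [SimpleGraph.fromRel_adj]
    change u.1 ≠ v.1 ∧ (((u.1 : ℕ), (v.1 : ℕ)) ∈ edg K H (LL K d n M H) ∨
      ((v.1 : ℕ), (u.1 : ℕ)) ∈ edg K H (LL K d n M H)) ↔ _
    rw [mem_edg, mem_edg]
    have h1 := mem_LL.1 (lb_mem (hlt u))
    have h2 := mem_LL.1 (lb_mem (hlt v))
    rw [e1b_iff h1 h2, e1b_iff h2 h1]
    constructor
    · rintro ⟨_, h | h⟩
      · exact Or.inl h.2.2
      · exact Or.inr h.2.2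
    · intro h
      refine ⟨?_, h.imp (fun h => ⟨hlt u, hlt v, h⟩) (fun h => ⟨hlt v, hlt u, h⟩)⟩
      intro huv
      rw [huv] at h
      rcases h with h | h <;> exact E1_ne h rfl
  · intro x hx hxD
    obtain ⟨i, hi, rfl⟩ := exists_lb (mem_LL.2 hx)
    exact ⟨⟨⟨i, by rw [len_mkI]; exact hi⟩, fun h => hxD ((hD i hi).1 h)⟩, rfl⟩

open Classical in
/-- the cost of a solution -/
theorem cost_eq (S : List ℕ) (D : Set Lab)
    (hD : ∀ i, i < (LL K d n M H).length → (i ∈ S ↔ lb (LL K d n M H) i ∈ D)) :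
    cost (mkI K H B (LL K d n M H)) S =
      ∑ x ∈ (LL K d n M H).toFinset.filter (fun x => x ∈ D), cst B x := by
  unfold cost
  refine Finset.sum_bij (fun v _ => lb (LL K d n M H) v) ?_ ?_ ?_ ?_
  · intro v hv
    have hlt : (v : ℕ) < (LL K d n M H).length := by
      exact lt_of_lt_of_eq v.2 (len_mkI _)
    rw [mem_filter] at hv ⊢
    exact ⟨List.mem_toFinset.2 (lb_mem hlt), (hD _ hlt).1 hv.2⟩
  · intro v _ w _ h
    have hlt : (v : ℕ) < (LL K d n M H).length := by
      exact lt_of_lt_of_eq v.2 (len_mkI _)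
    have hlt' : (w : ℕ) < (LL K d n M H).length := by
      exact lt_of_lt_of_eq w.2 (len_mkI _)
    exact Fin.ext (lb_inj nodup_LL hlt hlt' h)
  · intro x hx
    rw [mem_filter] at hx
    obtain ⟨i, hi, rfl⟩ := exists_lb (List.mem_toFinset.1 hx.1)
    refine ⟨⟨i, by rw [len_mkI]; exact hi⟩, ?_, rfl⟩
    rw [mem_filter]
    exact ⟨mem_univ _, (hD i hi).2 hx.2⟩
  · intro v _
    exact get_mkI _ _ _

/-! ### Completeness -/

/-- the words over a finite set -/
def wordsF (X : Finset ℕ) : ℕ → Finset (List ℕ)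
  | 0 => {[]}
  | r + 1 => (X ×ˢ wordsF X r).image (fun p => p.1 :: p.2)

theorem mem_wordsF {X : Finset ℕ} (r : ℕ) {w : List ℕ} :
    w.length = r → (∀ v ∈ w, v ∈ X) → w ∈ wordsF X r := by
  induction r generalizing w with
  | zero =>
    intro h _
    rw [List.length_eq_zero_iff] at h
    subst h
    simp [wordsF]
  | succ r ih =>
    intro h1 h2
    cases w with
    | nil => simp at h1
    | cons v w =>
      rw [wordsF, mem_image]
      refine ⟨(v, w), mem_product.2 ⟨h2 v (by simp), ih (by simpa using h1)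
        (fun u hu => h2 u (List.mem_cons_of_mem _ hu))⟩, rfl⟩

theorem card_wordsF (X : Finset ℕ) (r : ℕ) : (wordsF X r).card ≤ X.card ^ r := by
  induction r with
  | zero => simp [wordsF]
  | succ r ih =>
    rw [wordsF]
    refine card_image_le.trans ?_
    rw [card_product, pow_succ, mul_comm]
    exact Nat.mul_le_mul_right _ ih

theorem complete {X : Finset ℕ} (hX : ∀ j, j < H.length → ∃ i, i < d ∧ place H (j, i) ∈ X) :
    ∃ S, Feasible (mkI K H B (LL K d n M H)) S ∧
      cost (mkI K H B (LL K d n M H)) S ≤ M * X.card ^ K + (paths (steps d H) K).length := by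
  classical
  have : ∀ j, ∃ i, j < H.length → i < d ∧ place H (j, i) ∈ X := by
    intro j
    by_cases hj : j < H.length
    · obtain ⟨i, hi⟩ := hX j hj
      exact ⟨i, fun _ => hi⟩
    · exact ⟨0, fun h => absurd h hj⟩
  choose f hf using this
  let S : List ℕ := (List.range (LL K d n M H).length).filter (fun i => decide (lb (LL K d n M H) i ∈ Del f X))
  have hS : ∀ i, i < (LL K d n M H).length → (i ∈ S ↔ lb (LL K d n M H) i ∈ Del f X) := by
    intro i hi
    simp only [S, List.mem_filter, List.mem_range, decide_eq_true_eq]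
    exact ⟨fun h => h.2, fun h => ⟨hi, h⟩⟩
  refine ⟨S, ?_, ?_⟩
  · have h := lg_of (B := B) S (Del f X) hS
    exact stable_of_hit h (fun j hj => (hf j hj).1) (fun j hj => (hf j hj).2)
  · rw [cost_eq S (Del f X) hS]
    have h1 : (LL K d n M H).toFinset.filter (fun x => x ∈ Del f X) ⊆
        ((wordsF X K) ×ˢ (range M)).image (fun p => ((4, [], p.1, p.2) : Lab)) ∪
        (paths (steps d H) K).toFinset.image (fun a => ((3, a, [], 0) : Lab)) := by
      intro x hx
      rw [mem_filter, List.mem_toFinset] at hx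
      obtain ⟨hx1, hx2⟩ := hx
      have hv := mem_LL.1 hx1
      rcases hx2 with ⟨a, ha, rfl⟩ | ⟨w, i, hw, rfl⟩
      · refine mem_union_right _ (mem_image.2 ⟨a, ?_, rfl⟩)
        rw [List.mem_toFinset, mem_PP (n := n) (M := M)]
        rcases hv with ⟨i, _, h⟩ | ⟨b, hb, h⟩ | ⟨b, j, _, _, _, h⟩ | ⟨b, hb, h⟩ |
          ⟨w, i, _, _, _, h⟩ <;> simp only [Prod.mk.injEq] at h
        · omega
        · omega
        · omega
        · obtain ⟨_, rfl, _⟩ := h
          exact hb
        · omega
      · refine mem_union_left _ (mem_image.2 ⟨(w, i), ?_, rfl⟩)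
        rcases hv with ⟨i, _, h⟩ | ⟨b, hb, h⟩ | ⟨b, j, _, _, _, h⟩ | ⟨b, hb, h⟩ |
          ⟨w', i', hl, _, hi', h⟩ <;> simp only [Prod.mk.injEq] at h
        · omega
        · omega
        · omega
        · omega
        · obtain ⟨_, _, rfl, rfl⟩ := h
          exact mem_product.2 ⟨mem_wordsF K hl hw, mem_range.2 hi'⟩
    have h2 : ∀ x ∈ (LL K d n M H).toFinset.filter (fun x => x ∈ Del f X), cst B x = 1 := by
      intro x hx
      rw [mem_filter] at hx
      rcases hx.2 with ⟨a, ha, rfl⟩ | ⟨w, i, hw, rfl⟩ <;> simp [cst]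
    rw [sum_congr rfl h2, sum_const, smul_eq_mul, mul_one]
    refine (card_le_card h1).trans ((card_union_le _ _).trans ?_)
    refine Nat.add_le_add ?_ ?_
    · refine card_image_le.trans ?_
      rw [card_product, card_range, mul_comm]
      exact Nat.mul_le_mul_left _ (card_wordsF X K)
    · exact card_image_le.trans (List.toFinset_card_le _)

/-! ### Soundness -/

theorem sound {h : ℕ} (hh : ∀ X : Finset ℕ, (∀ j, j < H.length → ∃ i, i < d ∧ place H (j, i) ∈ X) →
      h ≤ X.card) (hn : ∀ e ∈ steps d H, place H e < n) {S : List ℕ}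
    (hS : Feasible (mkI K H B (LL K d n M H)) S)
    (hB : cost (mkI K H B (LL K d n M H)) S < B) :
    M * h ^ K ≤ cost (mkI K H B (LL K d n M H)) S + (paths (steps d H) K).length := by
  classical
  obtain ⟨D, hDm⟩ : ∃ D : Set Lab, ∀ x, x ∈ D ↔
      ∃ i ∈ S, i < (LL K d n M H).length ∧ lb (LL K d n M H) i = x :=
    ⟨{x | ∃ i ∈ S, i < (LL K d n M H).length ∧ lb (LL K d n M H) i = x}, fun x => Iff.rfl⟩
  have hD : ∀ i, i < (LL K d n M H).length → (i ∈ S ↔ lb (LL K d n M H) i ∈ D) := by
    intro i hi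
    rw [hDm]
    constructor
    · exact fun h => ⟨i, h, hi, rfl⟩
    · rintro ⟨j, hj, hjl, he⟩
      rw [← lb_inj nodup_LL hjl hi he]
      exact hj
  have hLG := lg_of (B := B) S D hD
  rw [cost_eq S D hD] at hB ⊢
  have hsm : Small D := by
    intro x hx
    by_contra hc
    have hxL : x ∈ (LL K d n M H).toFinset.filter (fun x => x ∈ D) := by
      have hx' := (hDm x).1 hx
      obtain ⟨i, _, hi, hix⟩ := hx'
      refine mem_filter.2 ⟨List.mem_toFinset.2 ?_, hx⟩
      rw [← hix]
      exact lb_mem hi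
    have h1 := single_le_sum (f := fun x => cst B x) (fun x _ => Nat.zero_le _) hxL
    have h2 : cst B x = B := by simp [cst, hc]
    simp only [h2] at h1
    omega
  obtain ⟨F, hF, hF2⟩ := exists_words hLG hsm hS h hh K le_rfl
  have hlt : ∀ u : {v : Fin (mkI K H B (LL K d n M H)).1.length | (v : ℕ) ∉ S},
      (u.1 : ℕ) < (LL K d n M H).length := by
    intro u
    exact lt_of_lt_of_eq u.1.2 (len_mkI _)
  -- the deleted copies of a word
  let dl : List ℕ → Finset ℕ := fun w => (range M).filter (fun i => ((4, [], w, i) : Lab) ∈ D)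
  let zz : List ℕ → Finset (List (ℕ × ℕ)) := fun w =>
    (paths (steps d H) K).toFinset.filter (fun b => b.map (place H) = w)
  have key : ∀ w ∈ F, M ≤ (dl w).card + (zz w).card := by
    intro w hw
    obtain ⟨hwl, a, ha, haw⟩ := hF2 w hw
    have hal : a.length = K := by rw [← hwl, ← haw, List.length_map]
    have haP : (par K d n M H).IsP a := by
      obtain ⟨r, u, _, hu, _⟩ := ha
      exact val1 (hu ▸ hLG.val u)
    have hwn : ∀ v ∈ w, v < n := by
      intro v hv
      rw [← haw] at hv
      obtain ⟨e, he, rfl⟩ := List.mem_map.1 hv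
      exact hn e (mem_steps.2 (haP.2 e he))
    have h1 := reach_count hLG hsm hS ha hal
    have h2 : ((range M).filter (fun i => ((4, [], w, i) : Lab) ∉ D)).card ≤
        (univ.filter (fun u : {v : Fin (mkI K H B (LL K d n M H)).1.length | (v : ℕ) ∉ S} =>
          ∃ i, lb (LL K d n M H) (u.1 : ℕ) = (4, [], a.map (par K d n M H).vt, i))).card := by
      have : ∀ i, ∃ u : {v : Fin (mkI K H B (LL K d n M H)).1.length | (v : ℕ) ∉ S},
          i ∈ (range M).filter (fun i => ((4, [], w, i) : Lab) ∉ D) →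
          lb (LL K d n M H) (u.1 : ℕ) = (4, [], w, i) := by
        intro i
        by_cases hi : i ∈ (range M).filter (fun i => ((4, [], w, i) : Lab) ∉ D)
        · rw [mem_filter, mem_range] at hi
          obtain ⟨u, hu⟩ := hLG.ex (4, [], w, i)
            (Or.inr (Or.inr (Or.inr (Or.inr ⟨w, i, hwl, hwn, hi.1, rfl⟩)))) hi.2
          exact ⟨u, fun _ => hu⟩
        · obtain ⟨u, hu⟩ := hLG.ex (0, [], [], 0) (Or.inl ⟨0, by norm_num, rfl⟩)
            (fun h => by have := hsm _ h; simp at this)
          exact ⟨u, fun h => absurd h hi⟩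
      choose g hg using this
      refine card_le_card_of_injOn g (fun i hi => ?_) ?_
      · rw [Finset.mem_coe, mem_filter]
        refine ⟨mem_univ _, i, ?_⟩
        rw [hg i hi]
        rw [haw]
      · intro i hi j hj hij
        have h3 := hg i hi
        have h4 := hg j hj
        rw [hij, h4] at h3
        simpa using h3.symm
    have h3 : (univ.filter (fun u : {v : Fin (mkI K H B (LL K d n M H)).1.length | (v : ℕ) ∉ S} =>
        ∃ b, b.length = K ∧ b.map (par K d n M H).vt = a.map (par K d n M H).vt ∧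
        lb (LL K d n M H) (u.1 : ℕ) = (1, b, [], 0))).card ≤ (zz w).card := by
      refine card_le_card_of_injOn (fun u => (lb (LL K d n M H) (u.1 : ℕ)).2.1) (fun u hu => ?_) ?_
      · rw [Finset.mem_coe, mem_filter] at hu
        obtain ⟨_, b, hb, hbw, hu⟩ := hu
        have hbP : (par K d n M H).IsP b := val1 (hu ▸ hLG.val u)
        rw [Finset.mem_coe, mem_filter, List.mem_toFinset, mem_PP (n := n) (M := M)]
        simp only [hu]
        refine ⟨hbP, ?_⟩
        rw [← haw]
        exact hbw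
      · intro u hu v hv huv
        rw [Finset.mem_coe, mem_filter] at hu hv
        obtain ⟨_, b, _, _, hu⟩ := hu
        obtain ⟨_, c, _, _, hv⟩ := hv
        simp only [hu, hv] at huv
        subst huv
        exact hLG.inj (hu.trans hv.symm)
    have h4 : ((range M).filter (fun i => ((4, [], w, i) : Lab) ∈ D)).card +
        ((range M).filter (fun i => ((4, [], w, i) : Lab) ∉ D)).card = M := by
      rw [card_filter_add_card_filter_not, card_range]
    have h5 := h2.trans (h1.trans h3)
    change M ≤ ((range M).filter (fun i => ((4, [], w, i) : Lab) ∈ D)).card + (zz w).card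
    omega
  have hz : ∑ w ∈ F, (zz w).card ≤ (paths (steps d H) K).length := by
    rw [← card_biUnion]
    · refine (card_le_card ?_).trans (List.toFinset_card_le _)
      intro b hb
      obtain ⟨w, _, hb⟩ := mem_biUnion.1 hb
      exact (mem_filter.1 hb).1
    · intro w _ w' _ hne
      rw [Function.onFun, disjoint_left]
      intro b hb hb'
      exact hne ((mem_filter.1 hb).2.symm.trans (mem_filter.1 hb').2)
  have hd : ∑ w ∈ F, (dl w).card ≤ ∑ x ∈ (LL K d n M H).toFinset.filter (fun x => x ∈ D), cst B x := by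
    have e1 : ∑ w ∈ F, (dl w).card = (F.biUnion (fun w => (dl w).image
        (fun i => ((4, [], w, i) : Lab)))).card := by
      rw [card_biUnion]
      · refine sum_congr rfl fun w _ => ?_
        rw [card_image_of_injective _ (fun i j h => by simpa using h)]
      · intro w _ w' _ hne
        rw [Function.onFun, disjoint_left]
        intro x hx hx'
        obtain ⟨i, _, rfl⟩ := mem_image.1 hx
        obtain ⟨j, _, h⟩ := mem_image.1 hx'
        simp only [Prod.mk.injEq] at h
        exact hne h.2.2.1.symm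
    rw [e1, card_eq_sum_ones]
    have e2 : F.biUnion (fun w => (dl w).image (fun i => ((4, [], w, i) : Lab))) ⊆
        (LL K d n M H).toFinset.filter (fun x => x ∈ D) := by
      intro x hx
      obtain ⟨w, _, hx⟩ := mem_biUnion.1 hx
      obtain ⟨i, hi, rfl⟩ := mem_image.1 hx
      have hxD := (mem_filter.1 hi).2
      obtain ⟨j, hj, hjl, he⟩ := (hDm _).1 hxD
      rw [mem_filter, List.mem_toFinset]
      refine ⟨?_, (mem_filter.1 hi).2⟩
      rw [← he]
      exact lb_mem hjl
    refine le_trans (le_of_eq (sum_congr rfl ?_)) (sum_le_sum_of_subset e2)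
    intro x hx
    obtain ⟨w, _, hx⟩ := mem_biUnion.1 hx
    obtain ⟨i, hi, rfl⟩ := mem_image.1 hx
    simp [cst]
  calc M * h ^ K ≤ M * F.card := Nat.mul_le_mul_left _ hF
    _ = ∑ w ∈ F, M := by rw [sum_const, smul_eq_mul, mul_comm]
    _ ≤ ∑ w ∈ F, ((dl w).card + (zz w).card) := sum_le_sum key
    _ = ∑ w ∈ F, (dl w).card + ∑ w ∈ F, (zz w).card := sum_add_distrib
    _ ≤ _ := Nat.add_le_add hd hz

end

end Pool.Agent.KS6_14.VD
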