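import Pool.Agent.KS6_14.VD.Graph

set_option autoImplicit false

/-!
# The labelled graph of the reduction
-/

namespace Pool.Agent.KS6_14.VD

open Pool.Agent.H569R2.VDel Finset

/-- labels of vertices: kind, path, word, index -/
abbrev Lab := ℕ × List (ℕ × ℕ) × List ℕ × ℕ

/-- the parameters: number of levels, number of hyperedges, width, bound for the vertices of the
hypergraph, number of copies, and the vertex in a given place of a given hyperedge -/
structure Par where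
  K : ℕ
  m : ℕ
  d : ℕ
  n : ℕ
  M : ℕ
  vt : ℕ × ℕ → ℕ

/-- paths -/
def Par.IsP (P : Par) (a : List (ℕ × ℕ)) : Prop := a.length ≤ P.K ∧ ∀ e ∈ a, e.1 < P.m ∧ e.2 < P.d

/-- the labels in use -/
def Par.Val (P : Par) (x : Lab) : Prop :=
  (∃ i, i < 3 ∧ x = (0, [], [], i)) ∨
  (∃ a, P.IsP a ∧ x = (1, a, [], 0)) ∨
  (∃ a j, P.IsP a ∧ a.length < P.K ∧ j < P.m ∧ x = (2, a, [], j)) ∨
  (∃ a, P.IsP a ∧ x = (3, a, [], 0)) ∨
  (∃ w i, w.length = P.K ∧ (∀ v ∈ w, v < P.n) ∧ i < P.M ∧ x = (4, [], w, i))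

/-- the edges, with one orientation -/
def Par.E1 (P : Par) (x y : Lab) : Prop :=
  (∃ i j, i ≠ j ∧ x = (0, [], [], i) ∧ y = (0, [], [], j)) ∨
  (x = (0, [], [], 0) ∧ y = (1, [], [], 0)) ∨
  (∃ a j, x = (2, a, [], j) ∧ (y = (1, a, [], 0) ∨ ∃ i, y = (1, (j, i) :: a, [], 0))) ∨
  (∃ a, x = (3, a, [], 0) ∧ y = (1, a, [], 0)) ∨
  (∃ a i, a.length = P.K ∧ x = (4, [], a.map P.vt, i) ∧ y = (1, a, [], 0))

/-- `H` is the graph on the labels in use outside `D` -/
structure Par.LG (P : Par) (D : Set Lab) {W : Type*} (H : SimpleGraph W) (lab : W → Lab) :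
    Prop where
  inj : Function.Injective lab
  val : ∀ u, P.Val (lab u)
  nD : ∀ u, lab u ∉ D
  adj : ∀ u v, H.Adj u v ↔ P.E1 (lab u) (lab v) ∨ P.E1 (lab v) (lab u)
  ex : ∀ x, P.Val x → x ∉ D → ∃ u, lab u = x

variable {P : Par}

theorem val1 {a : List (ℕ × ℕ)} (h : P.Val (1, a, [], 0)) : P.IsP a := by
  rcases h with ⟨i, _, h⟩ | ⟨b, hb, h⟩ | ⟨b, j, _, _, _, h⟩ | ⟨b, _, h⟩ | ⟨w, i, _, _, _, h⟩ <;>
    simp only [Prod.mk.injEq] at h
  · omega
  · obtain ⟨_, rfl, _⟩ := h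
    exact hb
  · omega
  · omega
  · omega

/-! ### Completeness -/

/-- active paths -/
def Act (f : ℕ → ℕ) (a : List (ℕ × ℕ)) : Prop := ∀ e ∈ a, e.2 = f e.1

/-- the deleted labels -/
def Del (f : ℕ → ℕ) (X : Finset ℕ) : Set Lab :=
  {x | (∃ a, Act f a ∧ x = (3, a, [], 0)) ∨ ∃ w i, (∀ v ∈ w, v ∈ X) ∧ x = (4, [], w, i)}

/-- the matching -/
def R1 (f : ℕ → ℕ) (x y : Lab) : Prop :=
  (x = (0, [], [], 0) ∧ y = (1, [], [], 0)) ∨ (x = (0, [], [], 1) ∧ y = (0, [], [], 2)) ∨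
  (∃ a j, Act f a ∧ x = (2, a, [], j) ∧ y = (1, (j, f j) :: a, [], 0)) ∨
  (∃ a, ¬ Act f a ∧ x = (3, a, [], 0) ∧ y = (1, a, [], 0))

open Classical in
/-- the partner of a label -/
noncomputable def ptn (f : ℕ → ℕ) (x : Lab) : Lab :=
  if x.1 = 0 then
    (if x.2.2.2 = 0 then (1, [], [], 0) else if x.2.2.2 = 1 then (0, [], [], 2)
      else (0, [], [], 1))
  else if x.1 = 1 then
    (match x.2.1 with
      | [] => (0, [], [], 0)
      | e :: a => if Act f (e :: a) then (2, a, [], e.1) else (3, e :: a, [], 0))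
  else if x.1 = 2 then (1, (x.2.2.2, f x.2.2.2) :: x.2.1, [], 0)
  else (1, x.2.1, [], 0)

theorem act_nil (f : ℕ → ℕ) : Act f [] := by
  intro e he
  simp at he

theorem act_cons {f : ℕ → ℕ} {e : ℕ × ℕ} {a : List (ℕ × ℕ)} :
    Act f (e :: a) ↔ e.2 = f e.1 ∧ Act f a := by
  unfold Act
  simp

theorem ptn_of_R1 {f : ℕ → ℕ} {x y : Lab} (h : R1 f x y) : ptn f x = y ∧ ptn f y = x := by
  rcases h with ⟨rfl, rfl⟩ | ⟨rfl, rfl⟩ | ⟨a, j, ha, rfl, rfl⟩ | ⟨a, ha, rfl, rfl⟩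
  · simp [ptn]
  · simp [ptn]
  · have : Act f ((j, f j) :: a) := act_cons.2 ⟨rfl, ha⟩
    simp [ptn, this]
  · cases a with
    | nil => exact absurd (act_nil f) ha
    | cons e a => simp [ptn, ha]

open Classical in
/-- the vertex cover -/
noncomputable def yl (f : ℕ → ℕ) (x : Lab) : ℝ :=
  if x.1 = 0 then (if x.2.2.2 = 2 then 0 else 1)
  else if x.1 = 1 then (if Act f x.2.1 then 0 else 1)
  else if x.1 = 2 then (if Act f x.2.1 then 1 else 0)
  else 0

theorem yl_nonneg (f : ℕ → ℕ) (x : Lab) : 0 ≤ yl f x := by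
  unfold yl
  split_ifs <;> norm_num

theorem yl_tight {f : ℕ → ℕ} {x y : Lab} (h : R1 f x y) : yl f x + yl f y ≤ 1 := by
  rcases h with ⟨rfl, rfl⟩ | ⟨rfl, rfl⟩ | ⟨a, j, ha, rfl, rfl⟩ | ⟨a, ha, rfl, rfl⟩
  · simp [yl, act_nil]
  · simp [yl]
  · have : Act f ((j, f j) :: a) := act_cons.2 ⟨rfl, ha⟩
    simp [yl, this, ha]
  · simp [yl, ha]

theorem yl_cover {f : ℕ → ℕ} {X : Finset ℕ} (hX : ∀ j, j < P.m → P.vt (j, f j) ∈ X) {x y : Lab}
    (h : P.E1 x y) (hx : P.Val x) (hy : P.Val y) (hxD : x ∉ Del f X) : 1 ≤ yl f x + yl f y := by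
  rcases h with ⟨i, j, hij, rfl, rfl⟩ | ⟨rfl, rfl⟩ | ⟨a, j, rfl, rfl | ⟨i, rfl⟩⟩ | ⟨a, rfl, rfl⟩ |
    ⟨a, i, ha, rfl, rfl⟩
  · simp only [yl, if_true]
    split_ifs with h1 h2
    · omega
    · norm_num
    · norm_num
    · norm_num
  · have := yl_nonneg f (1, [], [], 0)
    have h2 : yl f (0, [], [], 0) = 1 := by simp [yl]
    linarith
  · by_cases hA : Act f a
    · simp [yl, hA]
    · simp [yl, hA]
  · by_cases hA : Act f a
    · have := yl_nonneg f (1, (j, i) :: a, [], 0)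
      have h2 : yl f (2, a, [], j) = 1 := by simp [yl, hA]
      linarith
    · have hA' : ¬ Act f ((j, i) :: a) := fun h => hA (act_cons.1 h).2
      simp [yl, hA, hA']
  · by_cases hA : Act f a
    · exact absurd (Or.inl ⟨a, hA, rfl⟩) hxD
    · simp [yl, hA]
  · by_cases hA : Act f a
    · refine absurd (Or.inr ⟨_, i, ?_, rfl⟩) hxD
      intro v hv
      obtain ⟨e, he, rfl⟩ := List.mem_map.1 hv
      have h1 := (val1 hy).2 e he
      have h2 := hX e.1 h1.1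
      rw [← hA e he] at h2
      exact h2
    · simp [yl, hA]

theorem stable_of_hit {W : Type*} [Fintype W] {H : SimpleGraph W} {lab : W → Lab} {f : ℕ → ℕ}
    {X : Finset ℕ} (hL : P.LG (Del f X) H lab) (hf : ∀ j, j < P.m → f j < P.d)
    (hX : ∀ j, j < P.m → P.vt (j, f j) ∈ X) : Stable H := by
  refine stable_of_cert (fun u v => R1 f (lab u) (lab v) ∨ R1 f (lab v) (lab u)) ?_ ?_ ?_
    (fun u => yl f (lab u)) (fun u => yl_nonneg f _) ?_ ?_ ?_
  · intro u v h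
    rw [hL.adj]
    have key : ∀ x y : Lab, R1 f x y → P.E1 x y := by
      intro x y h
      rcases h with ⟨rfl, rfl⟩ | ⟨rfl, rfl⟩ | ⟨a, j, ha, rfl, rfl⟩ | ⟨a, ha, rfl, rfl⟩
      · exact Or.inr (Or.inl ⟨rfl, rfl⟩)
      · exact Or.inl ⟨1, 2, by norm_num, rfl, rfl⟩
      · exact Or.inr (Or.inr (Or.inl ⟨a, j, rfl, Or.inr ⟨_, rfl⟩⟩))
      · exact Or.inr (Or.inr (Or.inr (Or.inl ⟨a, rfl, rfl⟩)))
    exact h.imp (key _ _) (key _ _)
  · intro u v h
    exact h.symm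
  · intro u v w h1 h2
    have e1 : ptn f (lab u) = lab v := by
      rcases h1 with h | h
      · exact (ptn_of_R1 h).1
      · exact (ptn_of_R1 h).2
    have e2 : ptn f (lab u) = lab w := by
      rcases h2 with h | h
      · exact (ptn_of_R1 h).1
      · exact (ptn_of_R1 h).2
    exact hL.inj (e1.symm.trans e2)
  · intro u v h
    rcases (hL.adj u v).1 h with h | h
    · exact yl_cover hX h (hL.val u) (hL.val v) (hL.nD u)
    · rw [add_comm]
      exact yl_cover hX h (hL.val v) (hL.val u) (hL.nD v)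
  · intro v hv
    rcases hL.val v with ⟨i, hi, h⟩ | ⟨a, ha, h⟩ | ⟨a, j, ha, hlt, hj, h⟩ | ⟨a, ha, h⟩ |
      ⟨w, i, h1, h2, h3, h⟩
    · rw [h] at hv ⊢
      have h01 : i = 0 ∨ i = 1 := by
        by_contra hc
        have : i = 2 := by omega
        subst this
        exact hv (by simp [yl])
      rcases h01 with rfl | rfl
      · obtain ⟨u, hu⟩ := hL.ex (1, [], [], 0) (Or.inr (Or.inl ⟨[], ⟨by simp, by simp⟩, rfl⟩))
          (by simp [Del])
        exact ⟨u, Or.inl (Or.inl ⟨rfl, hu⟩)⟩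
      · obtain ⟨u, hu⟩ := hL.ex (0, [], [], 2) (Or.inl ⟨2, by norm_num, rfl⟩)
          (by simp [Del])
        exact ⟨u, Or.inl (Or.inr (Or.inl ⟨rfl, hu⟩))⟩
    · rw [h] at hv ⊢
      have hA : ¬ Act f a := by
        intro hA
        exact hv (by simp [yl, hA])
      obtain ⟨u, hu⟩ := hL.ex (3, a, [], 0) (Or.inr (Or.inr (Or.inr (Or.inl ⟨a, ha, rfl⟩))))
        (by simp [Del, hA])
      exact ⟨u, Or.inr (Or.inr (Or.inr (Or.inr ⟨a, hA, hu, rfl⟩)))⟩
    · rw [h] at hv ⊢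
      have hA : Act f a := by
        by_contra hA
        exact hv (by simp [yl, hA])
      obtain ⟨u, hu⟩ := hL.ex (1, (j, f j) :: a, [], 0) (Or.inr (Or.inl ⟨_, ⟨by
        rw [List.length_cons]; omega, by
        intro e he
        rcases List.mem_cons.1 he with rfl | he
        · exact ⟨hj, hf j hj⟩
        · exact ha.2 e he⟩, rfl⟩)) (by simp [Del])
      exact ⟨u, Or.inl (Or.inr (Or.inr (Or.inl ⟨a, j, hA, rfl, hu⟩)))⟩
    · rw [h] at hv
      exact absurd (by simp [yl]) hv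
    · rw [h] at hv
      exact absurd (by simp [yl]) hv
  · intro u v h
    rcases h with h | h
    · exact yl_tight h
    · rw [add_comm]
      exact yl_tight h

/-! ### Soundness -/

/-- the deleted labels are of kinds 3 and 4 -/
def Small (D : Set Lab) : Prop := ∀ x ∈ D, 3 ≤ x.1

variable {W : Type*} [Fintype W] {H : SimpleGraph W} {lab : W → Lab} {D : Set Lab}

omit [Fintype W] in
theorem tri_of (hL : P.LG D H lab) {r₀ r₁ r₂ c₀ : W} (h0 : lab r₀ = (0, [], [], 0))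
    (h1 : lab r₁ = (0, [], [], 1)) (h2 : lab r₂ = (0, [], [], 2)) (hc : lab c₀ = (1, [], [], 0)) :
    Tri H r₀ r₁ r₂ c₀ := by
  have key : ∀ i, ∀ u v, lab u = (0, [], [], i) → H.Adj u v →
      (∃ j, j ≠ i ∧ lab v = (0, [], [], j)) ∨ (i = 0 ∧ lab v = (1, [], [], 0)) := by
    intro i u v hu huv
    rcases (hL.adj u v).1 huv with h | h
    · rcases h with ⟨a, b, hab, h3, h4⟩ | ⟨h3, h4⟩ | ⟨a, j, h3, _⟩ | ⟨a, h3, _⟩ |
        ⟨a, j, _, h3, _⟩ <;> rw [hu] at h3 <;> simp only [Prod.mk.injEq] at h3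
      · refine Or.inl ⟨b, ?_, h4⟩
        omega
      · exact Or.inr ⟨h3.2.2.2, h4⟩
      · omega
      · omega
      · omega
    · rcases h with ⟨a, b, hab, h3, h4⟩ | ⟨h3, h4⟩ | ⟨a, j, h3, h4 | ⟨_, h4⟩⟩ | ⟨a, h3, h4⟩ |
        ⟨a, j, _, h3, h4⟩ <;> rw [hu] at h4 <;> simp only [Prod.mk.injEq] at h4
      · refine Or.inl ⟨a, ?_, h3⟩
        omega
      · omega
      · omega
      · omega
      · omega
      · omega
  have k3 : ∀ v j, lab v = (0, [], [], j) → j < 3 := by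
    intro v j hv
    rcases hL.val v with ⟨i, hi, h⟩ | ⟨a, ha, h⟩ | ⟨a, j, ha, hlt, hj, h⟩ | ⟨a, ha, h⟩ |
      ⟨w, i, _, _, _, h⟩ <;> rw [hv] at h <;> simp only [Prod.mk.injEq] at h
    · omega
    · omega
    · omega
    · omega
    · omega
  have ad : ∀ i j u v, i ≠ j → lab u = (0, [], [], i) → lab v = (0, [], [], j) → H.Adj u v :=
    fun i j u v hij hu hv => (hL.adj u v).2 (Or.inl (Or.inl ⟨i, j, hij, hu, hv⟩))
  refine ⟨ad 0 1 _ _ (by norm_num) h0 h1, ad 1 2 _ _ (by norm_num) h1 h2,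
    ad 0 2 _ _ (by norm_num) h0 h2, ?_, ?_, ?_⟩
  · intro v hv
    rcases key 0 _ v h0 hv with ⟨j, hj, h⟩ | ⟨_, h⟩
    · have := k3 v j h
      have hj2 : j = 1 ∨ j = 2 := by omega
      rcases hj2 with rfl | rfl
      · exact Or.inl (hL.inj (h.trans h1.symm))
      · exact Or.inr (Or.inl (hL.inj (h.trans h2.symm)))
    · exact Or.inr (Or.inr (hL.inj (h.trans hc.symm)))
  · intro v hv
    rcases key 1 _ v h1 hv with ⟨j, hj, h⟩ | ⟨h, _⟩
    · have := k3 v j h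
      have hj2 : j = 0 ∨ j = 2 := by omega
      rcases hj2 with rfl | rfl
      · exact Or.inl (hL.inj (h.trans h0.symm))
      · exact Or.inr (hL.inj (h.trans h2.symm))
    · omega
  · intro v hv
    rcases key 2 _ v h2 hv with ⟨j, hj, h⟩ | ⟨h, _⟩
    · have := k3 v j h
      have hj2 : j = 0 ∨ j = 1 := by omega
      rcases hj2 with rfl | rfl
      · exact Or.inl (hL.inj (h.trans h0.symm))
      · exact Or.inr (hL.inj (h.trans h1.symm))
    · omega

/-- reached paths -/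
def Reach (H : SimpleGraph W) (lab : W → Lab) (a : List (ℕ × ℕ)) : Prop :=
  ∃ r u, lab r = (0, [], [], 0) ∧ lab u = (1, a, [], 0) ∧ Near H r u

/-- the triangle exists -/
theorem exists_tri (hL : P.LG D H lab) (hD : Small D) : ∃ r₀ r₁ r₂ c₀, lab r₀ = (0, [], [], 0) ∧
    lab c₀ = (1, [], [], 0) ∧ Tri H r₀ r₁ r₂ c₀ := by
  have hn : ∀ x : Lab, x.1 < 3 → x ∉ D := fun x hx h => by
    have := hD x h
    omega
  obtain ⟨r₀, h0⟩ := hL.ex (0, [], [], 0) (Or.inl ⟨0, by norm_num, rfl⟩) (hn _ (by norm_num))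
  obtain ⟨r₁, h1⟩ := hL.ex (0, [], [], 1) (Or.inl ⟨1, by norm_num, rfl⟩) (hn _ (by norm_num))
  obtain ⟨r₂, h2⟩ := hL.ex (0, [], [], 2) (Or.inl ⟨2, by norm_num, rfl⟩) (hn _ (by norm_num))
  obtain ⟨c₀, hc⟩ := hL.ex (1, [], [], 0) (Or.inr (Or.inl ⟨[], ⟨by simp, by simp⟩, rfl⟩))
    (hn _ (by norm_num))
  exact ⟨r₀, r₁, r₂, c₀, h0, hc, tri_of hL h0 h1 h2 hc⟩

theorem reach_root (hL : P.LG D H lab) (hD : Small D) (hst : Stable H) : Reach H lab [] := by
  obtain ⟨r₀, r₁, r₂, c₀, h0, hc, hT⟩ := exists_tri hL hD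
  exact ⟨r₀, c₀, h0, hc, near_root hT hst⟩

theorem reach_step (hL : P.LG D H lab) (hD : Small D) (hst : Stable H) {a : List (ℕ × ℕ)}
    (ha : Reach H lab a) (hK : a.length < P.K) {j : ℕ} (hj : j < P.m) :
    ∃ i, i < P.d ∧ Reach H lab ((j, i) :: a) := by
  obtain ⟨r, u, hr, hu, hN⟩ := ha
  obtain ⟨r₀, r₁, r₂, c₀, h0, hc, hT⟩ := exists_tri hL hD
  obtain rfl : r = r₀ := hL.inj (hr.trans h0.symm)
  have haP : P.IsP a := val1 (hu ▸ hL.val u)
  obtain ⟨t, ht⟩ := hL.ex (2, a, [], j) (Or.inr (Or.inr (Or.inl ⟨a, j, haP, hK, hj, rfl⟩)))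
    (fun h => by have := hD _ h; simp at this)
  have hur : u ≠ r := by
    rintro rfl
    rw [hu] at hr
    simp at hr
  have htr : t ≠ r := by
    rintro rfl
    rw [ht] at hr
    simp at hr
  have hut : H.Adj u t := (hL.adj u t).2 (Or.inr (Or.inr (Or.inr (Or.inl ⟨a, j, ht, Or.inl hu⟩))))
  obtain ⟨c', h1, h2, h3, h4⟩ := near_step hT hst hN hur hut htr
  have key : ∃ i, lab c' = (1, (j, i) :: a, [], 0) := by
    rcases (hL.adj t c').1 h3 with h | h
    · rcases h with ⟨p, q, _, h5, _⟩ | ⟨h5, _⟩ | ⟨b, q, h5, h6⟩ | ⟨b, h5, _⟩ | ⟨b, q, _, h5, _⟩ <;>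
        rw [ht] at h5 <;> simp only [Prod.mk.injEq] at h5
      · omega
      · omega
      · obtain ⟨_, rfl, _, rfl⟩ := h5
        rcases h6 with h6 | ⟨i, h6⟩
        · exact absurd (hL.inj (h6.trans hu.symm)) h1
        · exact ⟨i, h6⟩
      · omega
      · omega
    · rcases h with ⟨p, q, _, _, h5⟩ | ⟨_, h5⟩ | ⟨b, q, _, h5 | ⟨_, h5⟩⟩ | ⟨b, _, h5⟩ |
        ⟨b, q, _, _, h5⟩ <;>
        rw [ht] at h5 <;> simp only [Prod.mk.injEq] at h5 <;> omega
  obtain ⟨i, hi⟩ := key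
  have hP : P.IsP ((j, i) :: a) := val1 (hi ▸ hL.val c')
  exact ⟨i, (hP.2 (j, i) (by simp)).2, r, c', hr, hi, h4⟩

open Classical in
/-- few copies of a reached word survive -/
theorem reach_count (hL : P.LG D H lab) (hD : Small D) (hst : Stable H) {a : List (ℕ × ℕ)}
    (ha : Reach H lab a) (hK : a.length = P.K) :
    (univ.filter (fun u : W => ∃ i, lab u = (4, [], a.map P.vt, i))).card ≤
      (univ.filter (fun u : W => ∃ b, b.length = P.K ∧ b.map P.vt = a.map P.vt ∧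
        lab u = (1, b, [], 0))).card := by
  obtain ⟨r, u, hr, hu, hN⟩ := ha
  obtain ⟨r₀, r₁, r₂, c₀, h0, hc, hT⟩ := exists_tri hL hD
  obtain rfl : r = r₀ := hL.inj (hr.trans h0.symm)
  have hur : u ≠ r := by
    rintro rfl
    rw [hu] at hr
    simp at hr
  refine near_count hT hst hN hur _ _ ?_ ?_ ?_
  · intro t ht
    rw [mem_filter] at ht
    obtain ⟨_, i, hi⟩ := ht
    exact (hL.adj u t).2 (Or.inr (Or.inr (Or.inr (Or.inr (Or.inr ⟨a, i, hK, hi, hu⟩)))))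
  · intro t ht
    rw [mem_filter] at ht
    obtain ⟨_, i, hi⟩ := ht
    rintro rfl
    rw [hi] at hr
    simp at hr
  · intro t ht v hv
    rw [mem_filter] at ht ⊢
    obtain ⟨_, i, hi⟩ := ht
    refine ⟨mem_univ _, ?_⟩
    rcases (hL.adj t v).1 hv with h | h
    · rcases h with ⟨p, q, _, h5, _⟩ | ⟨h5, _⟩ | ⟨b, q, h5, h6⟩ | ⟨b, h5, _⟩ |
        ⟨b, q, hb, h5, h6⟩ <;>
        rw [hi] at h5 <;> simp only [Prod.mk.injEq] at h5
      · omega
      · omega
      · omega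
      · omega
      · exact ⟨b, hb, h5.2.2.1.symm, h6⟩
    · rcases h with ⟨p, q, _, _, h5⟩ | ⟨_, h5⟩ | ⟨b, q, _, h5 | ⟨_, h5⟩⟩ | ⟨b, _, h5⟩ |
        ⟨b, q, _, _, h5⟩ <;>
        rw [hi] at h5 <;> simp only [Prod.mk.injEq] at h5 <;> omega

/-- there are many reached words -/
theorem exists_words (hL : P.LG D H lab) (hD : Small D) (hst : Stable H) (h : ℕ)
    (hh : ∀ X : Finset ℕ, (∀ j, j < P.m → ∃ i, i < P.d ∧ P.vt (j, i) ∈ X) → h ≤ X.card)
    (r : ℕ) (hr : r ≤ P.K) : ∃ F : Finset (List ℕ), h ^ r ≤ F.card ∧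
      ∀ w ∈ F, w.length = r ∧ ∃ a, Reach H lab a ∧ a.map P.vt = w := by
  classical
  induction r with
  | zero =>
    refine ⟨{[]}, by simp, ?_⟩
    intro w hw
    rw [mem_singleton] at hw
    subst hw
    exact ⟨rfl, [], reach_root hL hD hst, rfl⟩
  | succ r ih =>
    obtain ⟨F, hF, hF2⟩ := ih (by omega)
    have hX : ∀ w : List ℕ, ∃ X : Finset ℕ, w ∈ F → (h ≤ X.card ∧ ∀ v ∈ X,
        ∃ a, Reach H lab a ∧ a.map P.vt = v :: w) := by
      intro w
      by_cases hw : w ∈ F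
      swap
      · exact ⟨∅, fun h => absurd h hw⟩
      obtain ⟨hl, a, ha, haw⟩ := hF2 w hw
      have hla : a.length = r := by
        rw [← hl, ← haw, List.length_map]
      have : ∀ j, ∃ i, j < P.m → i < P.d ∧ Reach H lab ((j, i) :: a) := by
        intro j
        by_cases hj : j < P.m
        · obtain ⟨i, hi⟩ := reach_step hL hD hst ha (by omega) hj
          exact ⟨i, fun _ => hi⟩
        · exact ⟨0, fun h => absurd h hj⟩
      choose g hg using this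
      refine ⟨(range P.m).image (fun j => P.vt (j, g j)), fun _ => ⟨hh _ ?_, ?_⟩⟩
      · intro j hj
        exact ⟨g j, (hg j hj).1, mem_image.2 ⟨j, mem_range.2 hj, rfl⟩⟩
      · intro v hv
        obtain ⟨j, hj, rfl⟩ := mem_image.1 hv
        rw [mem_range] at hj
        exact ⟨(j, g j) :: a, (hg j hj).2, by rw [List.map_cons, haw]⟩
    choose X hX using hX
    refine ⟨F.biUnion (fun w => (X w).image (fun v => v :: w)), ?_, ?_⟩
    · rw [card_biUnion]
      · calc h ^ (r + 1) = h ^ r * h := pow_succ _ _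
          _ ≤ F.card * h := Nat.mul_le_mul_right _ hF
          _ = ∑ w ∈ F, h := by rw [sum_const, smul_eq_mul]
          _ ≤ ∑ w ∈ F, ((X w).image (fun v => v :: w)).card := by
              refine sum_le_sum fun w hw => ?_
              rw [card_image_of_injective _ (fun v v' h => (List.cons.inj h).1)]
              exact (hX w hw).1
      · intro w hw w' hw' hne
        rw [Function.onFun, disjoint_left]
        intro x hx hx'
        obtain ⟨v, _, rfl⟩ := mem_image.1 hx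
        obtain ⟨v', _, h'⟩ := mem_image.1 hx'
        exact hne (List.cons.inj h').2.symm
    · intro w hw
      obtain ⟨w', hw', hw⟩ := mem_biUnion.1 hw
      obtain ⟨v, hv, rfl⟩ := mem_image.1 hw
      refine ⟨by rw [List.length_cons, (hF2 w' hw').1], ?_⟩
      exact (hX w' hw').2 v hv

end Pool.Agent.KS6_14.VD
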