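import Pool.Agent.KS6_14.VD.Ins
import Pool.Graph.R_seed8.R550.HSGap
import Pool.Graph.R_seed8.H569R2.Approx
import Pool.Graph.R_seed8.H671R2.PolyAuto

set_option autoImplicit false

/-!
# The instance is computable in time polynomial in its size
-/

namespace Pool.Agent.KS6_14.VD

open Pool.Agent.NPC Pool.Agent.H569R2.VDel Pool.Agent.R550.HS

/-- one step of the construction of the paths, stopped when there are too many -/
def stp {β : Type} (s : ℕ) (E : List β) (P : List (List β)) : List (List β) :=
  bif decide (P.length * E.length + 1 ≤ s) then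
    [] :: P.flatMap (fun a => E.map (fun e => e :: a)) else P

/-- the paths, with a bound for their number -/
def pathsG {β : Type} (s : ℕ) (E : List β) (r : ℕ) : List (List β) := (stp s E)^[r] [[]]

theorem pathsG_inv {β : Type} (s : ℕ) (E : List β) (r : ℕ) :
    (pathsG s E r).length ≤ s + 1 ∧
      ∀ a ∈ pathsG s E r, a.length ≤ r ∧ ∀ e ∈ a, e ∈ E := by
  induction r with
  | zero => simp [pathsG]
  | succ r ih =>
    unfold pathsG at ih ⊢
    rw [Function.iterate_succ_apply']
    set P := (stp s E)^[r] [[]] with hP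
    obtain ⟨h1, h2⟩ := ih
    by_cases hs : P.length * E.length + 1 ≤ s
    · simp only [stp, hs, decide_true, cond_true]
      constructor
      · rw [List.length_cons, List.length_flatMap]
        simp only [List.length_map, List.map_const', List.sum_replicate, smul_eq_mul]
        omega
      · intro a ha
        rcases List.mem_cons.1 ha with rfl | ha
        · simp
        · obtain ⟨b, hb, ha⟩ := List.mem_flatMap.1 ha
          obtain ⟨e, he, rfl⟩ := List.mem_map.1 ha
          refine ⟨by rw [List.length_cons]; have := (h2 b hb).1; omega, ?_⟩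
          intro e' he'
          rcases List.mem_cons.1 he' with rfl | he'
          · exact he
          · exact (h2 b hb).2 e' he'
    · simp only [stp, hs, decide_false, cond_false]
      exact ⟨h1, fun a ha => ⟨by have := (h2 a ha).1; omega, (h2 a ha).2⟩⟩

theorem pathsG_eq {β : Type} {s : ℕ} {E : List β} {r : ℕ} (hs : (E.length + 1) ^ r ≤ s) :
    pathsG s E r = paths E r := by
  induction r with
  | zero => rfl
  | succ r ih =>
    have h1 : (E.length + 1) ^ r ≤ (E.length + 1) ^ (r + 1) :=
      Nat.pow_le_pow_right (by omega) (by omega)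
    have ih' := ih (h1.trans hs)
    unfold pathsG at ih' ⊢
    rw [Function.iterate_succ_apply', ih', paths]
    have h2 := length_paths E r
    have h3 : 1 ≤ (E.length + 1) ^ r := Nat.one_le_pow _ _ (by omega)
    have h4 : (paths E r).length * E.length + 1 ≤ s := by
      refine le_trans ?_ hs
      rw [pow_succ]
      nlinarith
    simp only [stp, h4, decide_true, cond_true]

variable {α β : Type} [TEnc α] [TEnc β]

theorem poly_pathsG {s r : α → ℕ} {E : α → List β} (hs : UPoly s) (hr : UPoly r) (hE : Poly E) :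
    Poly (fun a => pathsG (s a) (E a) (r a)) := by
  obtain ⟨ps, hps⟩ := hs.sz_le
  obtain ⟨pr, hpr⟩ := hr.sz_le
  obtain ⟨pE, hpE⟩ := hE.sz_le
  have hs' : Poly s := hs.toPoly
  have hF : Poly (fun p : α × List (List β) => stp (s p.1) (E p.1) p.2) := by
    have h1 : Poly (fun p : α × List (List β) => s p.1) := hs'.comp (Poly.fst Poly.id)
    have h2 : Poly (fun p : α × List (List β) => E p.1) := hE.comp (Poly.fst Poly.id)
    unfold stp
    refine Poly.cond ?_ ?_ (Poly.snd Poly.id)
    · exact Poly.decide_le (Poly.succ (Poly.mul (Poly.length (Poly.snd Poly.id))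
        (Poly.length h2))) h1
    · refine Poly.cons (NPC.Poly.const _) (Poly.flatMap
        (F := fun (p : α × List (List β)) a => (E p.1).map (fun e => e :: a)) (Poly.snd Poly.id) ?_)
      refine NPC.Poly.map (F := fun (q : (α × List (List β)) × List β) e => e :: q.2)
        (h2.comp (Poly.fst Poly.id)) ?_
      exact Poly.cons (Poly.snd Poly.id) (Poly.snd (Poly.fst Poly.id))
  refine (Poly.iterLen (l := fun a => List.replicate (r a) ()) (s := fun _ => [[]])
    (F := fun a P => stp (s a) (E a) P) hr (NPC.Poly.const _) hF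
    ((ps + Polynomial.C 1) * (pr * (pE + Polynomial.C 1) + Polynomial.C 2) + Polynomial.C 1)
    ?_).congr fun a => ?_
  · intro a k hk
    rw [List.length_replicate] at hk
    obtain ⟨h1, h2⟩ := pathsG_inv (s a) (E a) k
    have e1 : s a ≤ ps.eval (sz a) := by
      have h3 := length_lt_sz (List.replicate (s a) ())
      have h4 := hps a
      rw [List.length_replicate] at h3
      omega
    have e2 : k ≤ pr.eval (sz a) := by
      have h3 := length_lt_sz (List.replicate (r a) ())
      have h4 := hpr a
      rw [List.length_replicate] at h3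
      omega
    have e3 := hpE a
    have h5 : ∀ b ∈ pathsG (s a) (E a) k, sz b ≤ pr.eval (sz a) * (pE.eval (sz a) + 1) + 1 := by
      intro b hb
      have h6 := sz_le_length_mul b (sz (E a)) (fun e he => (sz_le_of_mem ((h2 b hb).2 e he)).le)
      refine h6.trans ?_
      have h7 := (h2 b hb).1
      have h8 : b.length * (sz (E a) + 1) ≤ pr.eval (sz a) * (pE.eval (sz a) + 1) :=
        Nat.mul_le_mul (h7.trans e2) (by omega)
      omega
    have h6 := sz_le_length_mul _ _ h5
    change sz (pathsG (s a) (E a) k) ≤ _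
    refine h6.trans ?_
    simp only [Polynomial.eval_add, Polynomial.eval_mul, Polynomial.eval_C]
    have h7 : (pathsG (s a) (E a) k).length * (pr.eval (sz a) * (pE.eval (sz a) + 1) + 1 + 1) ≤
        (ps.eval (sz a) + 1) * (pr.eval (sz a) * (pE.eval (sz a) + 1) + 2) :=
      Nat.mul_le_mul (by omega) le_rfl
    omega
  · simp only [List.length_replicate]
    rfl

theorem poly_powU {b r : α → ℕ} (hb : Poly b) (hr : UPoly r) : Poly (fun a => b a ^ r a) := by
  obtain ⟨pr, hpr⟩ := hr.sz_le
  obtain ⟨pb, hpb⟩ := hb.sz_le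
  have hF : Poly (fun p : α × ℕ => p.2 * b p.1) :=
    Poly.mul (Poly.snd Poly.id) (hb.comp (Poly.fst Poly.id))
  have key : ∀ (b k : ℕ), (fun x => x * b)^[k] 1 = b ^ k := by
    intro b k
    induction k with
    | zero => rfl
    | succ k ih => rw [Function.iterate_succ_apply', ih, pow_succ]
  refine (Poly.iterLen (l := fun a => List.replicate (r a) ()) (s := fun _ => 1)
    (F := fun a x => x * b a) hr (NPC.Poly.const _) hF
    (Polynomial.C 4 * (pr * pb + Polynomial.C 1) + Polynomial.C 1) ?_).congr fun a => ?_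
  · intro a k hk
    rw [List.length_replicate] at hk
    rw [key]
    have e2 : k ≤ pr.eval (sz a) := by
      have h3 := length_lt_sz (List.replicate (r a) ())
      have h4 := hpr a
      rw [List.length_replicate] at h3
      omega
    have e1 : (b a).size ≤ pb.eval (sz a) := by
      have h3 := size_le_sz (b a)
      have h4 := hpb a
      omega
    have h5 : (b a ^ k).size ≤ k * (b a).size + 1 := by
      rw [Nat.size_le]
      have h6 : b a ≤ 2 ^ (b a).size := (Nat.lt_size_self _).le
      calc b a ^ k ≤ (2 ^ (b a).size) ^ k := Nat.pow_le_pow_left h6 _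
        _ = 2 ^ (k * (b a).size) := by rw [← pow_mul, mul_comm]
        _ < 2 ^ (k * (b a).size + 1) := Nat.pow_lt_pow_right (by norm_num) (by omega)
    have h7 : k * (b a).size ≤ pr.eval (sz a) * pb.eval (sz a) := Nat.mul_le_mul e2 e1
    have h8 := sz_nat_le (b a ^ k)
    simp only [Polynomial.eval_add, Polynomial.eval_mul, Polynomial.eval_C]
    omega
  · simp only [List.length_replicate]
    rw [key]

theorem poly_steps {H : α → List (List ℕ)} (d : ℕ) (hH : Poly H) :
    Poly (fun a => steps d (H a)) := by
  unfold steps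
  have h1 : Poly (fun a => List.range (H a).length) := (UPoly.length hH).range
  have h2 : Poly (fun _ : α × ℕ => List.range d) := (UPoly.const d).range
  fun_prop

theorem poly_verts {K m M : α → ℕ} {PP : α → List (List (ℕ × ℕ))} {WW : α → List (List ℕ)}
    (hK : Poly K) (hm : UPoly m) (hM : UPoly M) (hP : Poly PP) (hW : Poly WW) :
    Poly (fun a => verts (K a) (m a) (M a) (PP a) (WW a)) := by
  unfold verts
  have h1 : Poly (fun a => List.range (m a)) := hm.range
  have h2 : Poly (fun a => List.range (M a)) := hM.range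
  refine Poly.append (NPC.Poly.const _) (Poly.append ?_ (Poly.append ?_ (Poly.append ?_ ?_)))
  · fun_prop
  · refine Poly.flatMap (F := fun a (b : List (ℕ × ℕ)) => (List.range (m a)).map
      (fun j => ((2, b, [], j) : Lab))) ?_ ?_
    · exact Poly.filter (p := fun a (b : List (ℕ × ℕ)) => decide (b.length < K a)) hP
        (Poly.decide_lt (Poly.length (Poly.snd Poly.id)) (hK.comp (Poly.fst Poly.id)))
    · have h3 : Poly (fun p : α × List (ℕ × ℕ) => List.range (m p.1)) :=
        h1.comp (Poly.fst Poly.id)
      fun_prop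
  · fun_prop
  · refine Poly.flatMap (F := fun a (w : List ℕ) => (List.range (M a)).map
      (fun i => ((4, [], w, i) : Lab))) ?_ ?_
    · exact Poly.filter (p := fun a (w : List ℕ) => decide (w.length = K a)) hW
        (Poly.decide_eq (Poly.length (Poly.snd Poly.id)) (hK.comp (Poly.fst Poly.id)))
    · have h3 : Poly (fun p : α × List ℕ => List.range (M p.1)) :=
        h2.comp (Poly.fst Poly.id)
      fun_prop

theorem poly_place {H : α → List (List ℕ)} {e : α → ℕ × ℕ} (hH : Poly H) (he : Poly e) :
    Poly (fun a => place (H a) (e a)) := by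
  unfold place
  fun_prop

theorem poly_lb {L : α → List Lab} {i : α → ℕ} (hL : Poly L) (hi : Poly i) :
    Poly (fun a => lb (L a) (i a)) := by
  unfold lb
  fun_prop

theorem poly_cst {B : α → ℕ} {x : α → Lab} (hB : Poly B) (hx : Poly x) :
    Poly (fun a => cst (B a) (x a)) := by
  unfold cst
  fun_prop

theorem poly_e1b {K : α → ℕ} {H : α → List (List ℕ)} {x y : α → Lab} (hK : Poly K) (hH : Poly H)
    (hx : Poly x) (hy : Poly y) : Poly (fun a => e1b (K a) (H a) (x a) (y a)) := by
  unfold e1b
  have h1 : Poly (fun p : α × (ℕ × ℕ) => place (H p.1) p.2) :=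
    poly_place (hH.comp (Poly.fst Poly.id)) (Poly.snd Poly.id)
  fun_prop

theorem poly_edg {K : α → ℕ} {H : α → List (List ℕ)} {L : α → List Lab} (hK : Poly K)
    (hH : Poly H) (hL : Poly L) : Poly (fun a => edg (K a) (H a) (L a)) := by
  unfold edg
  have h1 : Poly (fun a => List.range (L a).length) := (UPoly.length hL).range
  refine Poly.flatMap (F := fun a i => ((List.range (L a).length).filter
    (fun j => e1b (K a) (H a) (lb (L a) i) (lb (L a) j))).map (fun j => (i, j))) h1 ?_
  refine NPC.Poly.map (F := fun (p : α × ℕ) j => (p.2, j)) ?_ (by fun_prop)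
  refine Poly.filter (p := fun (p : α × ℕ) j =>
    e1b (K p.1) (H p.1) (lb (L p.1) p.2) (lb (L p.1) j)) (h1.comp (Poly.fst Poly.id)) ?_
  have hf : Poly (fun q : (α × ℕ) × ℕ => q.1.1) := Poly.fst (Poly.fst Poly.id)
  exact poly_e1b (hK.comp hf) (hH.comp hf)
    (poly_lb (hL.comp hf) (Poly.snd (Poly.fst Poly.id)))
    (poly_lb (hL.comp hf) (Poly.snd Poly.id))

theorem poly_mkI {K B : α → ℕ} {H : α → List (List ℕ)} {L : α → List Lab} (hK : Poly K)
    (hH : Poly H) (hB : Poly B) (hL : Poly L) :
    Poly (fun a => mkI (K a) (H a) (B a) (L a)) := by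
  unfold mkI
  refine Poly.pair ?_ (poly_edg hK hH hL)
  exact NPC.Poly.map (F := fun a x => cst (B a) x) hL
    (poly_cst (hB.comp (Poly.fst Poly.id)) (Poly.snd Poly.id))

/-! ### The instance -/

/-- number of paths -/
def np (K d : ℕ) (H : List (List ℕ)) : ℕ := (paths (steps d H) K).length

/-- the threshold -/
def kf (K d k₀ : ℕ) (H : List (List ℕ)) : ℕ := 2 * np K d H * k₀ ^ K + np K d H

/-- the instance -/
def inst (K d n k₀ : ℕ) (H : List (List ℕ)) : Inst :=
  mkI K H (2 ^ K * kf K d k₀ H + 1) (LL K d n (2 * np K d H) H)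

/-- number of paths, bounded version -/
def npG (s K d : ℕ) (H : List (List ℕ)) : ℕ := (pathsG s (steps d H) K).length

/-- the threshold, bounded version -/
def kfG (s K d k₀ : ℕ) (H : List (List ℕ)) : ℕ := 2 * npG s K d H * k₀ ^ K + npG s K d H

/-- the instance, bounded version -/
def instG (s K d n k₀ : ℕ) (H : List (List ℕ)) : Inst :=
  mkI K H (2 ^ K * kfG s K d k₀ H + 1)
    (verts K H.length (2 * npG s K d H) (pathsG s (steps d H) K) (pathsG s (List.range n) K))

theorem npG_eq {s K d : ℕ} {H : List (List ℕ)} (hs : (H.length * d + 1) ^ K ≤ s) :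
    npG s K d H = np K d H := by
  unfold npG np
  rw [pathsG_eq (by rw [length_steps]; exact hs)]

theorem kfG_eq {s K d k₀ : ℕ} {H : List (List ℕ)} (hs : (H.length * d + 1) ^ K ≤ s) :
    kfG s K d k₀ H = kf K d k₀ H := by
  unfold kfG kf
  rw [npG_eq hs]

theorem instG_eq {s K d n k₀ : ℕ} {H : List (List ℕ)} (hs : (H.length * d + 1) ^ K ≤ s)
    (hs' : (n + 1) ^ K ≤ s) : instG s K d n k₀ H = inst K d n k₀ H := by
  unfold instG inst LL
  rw [npG_eq hs, kfG_eq hs, pathsG_eq (by rw [length_steps]; exact hs),
    pathsG_eq (by rw [List.length_range]; exact hs')]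

theorem uPoly_npG {s K : α → ℕ} {H : α → List (List ℕ)} (d : ℕ) (hs : UPoly s) (hK : UPoly K)
    (hH : Poly H) : UPoly (fun a => npG (s a) (K a) d (H a)) :=
  UPoly.length (poly_pathsG hs hK (poly_steps d hH))

theorem poly_kfG {s K k₀ : α → ℕ} {H : α → List (List ℕ)} (d : ℕ) (hs : UPoly s) (hK : UPoly K)
    (hk : Poly k₀) (hH : Poly H) : Poly (fun a => kfG (s a) (K a) d (k₀ a) (H a)) := by
  unfold kfG
  have h1 := (uPoly_npG d hs hK hH).toPoly
  exact Poly.add (Poly.mul (Poly.mul (NPC.Poly.const 2) h1) (poly_powU hk hK)) h1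

theorem poly_instG {s K n k₀ : α → ℕ} {H : α → List (List ℕ)} (d : ℕ) (hs : UPoly s)
    (hK : UPoly K) (hn : UPoly n) (hk : Poly k₀) (hH : Poly H) :
    Poly (fun a => instG (s a) (K a) d (n a) (k₀ a) (H a)) := by
  unfold instG
  refine poly_mkI hK.toPoly hH ?_ ?_
  · exact Poly.succ (Poly.mul (poly_powU (NPC.Poly.const 2) hK) (poly_kfG d hs hK hk hH))
  · refine poly_verts hK.toPoly (UPoly.length hH)
      (UPoly.mul (UPoly.const 2) (uPoly_npG d hs hK hH)) (poly_pathsG hs hK (poly_steps d hH)) ?_
    exact poly_pathsG hs hK hn.range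

end Pool.Agent.KS6_14.VD
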